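import Pool.Agent.H990_Song.Basic

/-! Degrees, averaging, low-degree sets and the cut form of connectivity. -/

namespace H990

open Finset

set_option linter.unusedSectionVars false

variable {V : Type*} [DecidableEq V] [Fintype V]

open Classical in
/-- Out-neighbours. -/
noncomputable def Nout (r : V → V → Prop) (v : V) : Finset V := univ.filter (fun w => r v w)

lemma mem_Nout {r : V → V → Prop} {v w : V} : w ∈ Nout r v ↔ r v w := by
  simp [Nout]

open Classical in
/-- Out-neighbourhood of a set (may meet the set). -/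
noncomputable def NoutS (r : V → V → Prop) (X : Finset V) : Finset V :=
  X.biUnion (fun v => Nout r v)

lemma mem_NoutS {r : V → V → Prop} {X : Finset V} {w : V} :
    w ∈ NoutS r X ↔ ∃ v ∈ X, r v w := by
  simp [NoutS, mem_Nout]

lemma card_NoutS_le {r : V → V → Prop} {X : Finset V} {K : ℕ}
    (h : ∀ v ∈ X, (Nout r v).card ≤ K) : (NoutS r X).card ≤ X.card * K := by
  unfold NoutS
  exact Finset.card_biUnion_le_card_mul _ _ _ h

/-- Averaging in a tournament. -/
lemma exists_small_out {r : V → V → Prop} (hT : IsTournament r) {L : Finset V}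
    (hL : L.Nonempty) : ∃ v ∈ L, 2 * (Nout r v ∩ L).card + 1 ≤ L.card := by
  classical
  by_contra hcon
  push Not at hcon
  have h1 : ∀ v ∈ L, L.card ≤ 2 * (Nout r v ∩ L).card := by
    intro v hv
    have := hcon v hv
    omega
  have hsum : ∑ v ∈ L, (Nout r v ∩ L).card = ∑ v ∈ L, (Nout (rev r) v ∩ L).card := by
    have h2 : ∀ v ∈ L, (Nout r v ∩ L).card = ∑ w ∈ L, if r v w then 1 else 0 := by
      intro v _
      rw [Finset.sum_boole]
      simp only [Nat.cast_id]
      congr 1
      ext w
      simp [mem_Nout, and_comm]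
    have h3 : ∀ v ∈ L, (Nout (rev r) v ∩ L).card = ∑ w ∈ L, if r w v then 1 else 0 := by
      intro v _
      rw [Finset.sum_boole]
      simp only [Nat.cast_id]
      congr 1
      ext w
      simp [mem_Nout, and_comm, rev]
    rw [Finset.sum_congr rfl h2, Finset.sum_congr rfl h3, Finset.sum_comm]
  have hpart : ∀ v ∈ L, (Nout r v ∩ L).card + (Nout (rev r) v ∩ L).card = L.card - 1 := by
    intro v hv
    have h4 : (Nout r v ∩ L) ∪ (Nout (rev r) v ∩ L) = L.erase v := by
      ext w
      simp only [Finset.mem_union, Finset.mem_inter, mem_Nout, Finset.mem_erase, rev]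
      constructor
      · rintro (⟨h, h'⟩ | ⟨h, h'⟩)
        · exact ⟨(hT.ne h).symm, h'⟩
        · exact ⟨hT.ne h, h'⟩
      · rintro ⟨h, h'⟩
        rcases hT.2.1 v w (Ne.symm h) with h5 | h5
        · exact Or.inl ⟨h5, h'⟩
        · exact Or.inr ⟨h5, h'⟩
    have h5 : Disjoint (Nout r v ∩ L) (Nout (rev r) v ∩ L) := by
      rw [Finset.disjoint_left]
      intro w hw hw'
      simp only [Finset.mem_inter, mem_Nout, rev] at hw hw'
      exact hT.2.2 _ _ hw.1 hw'.1
    rw [← Finset.card_union_of_disjoint h5, h4, Finset.card_erase_of_mem hv]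
  have h6 : ∑ v ∈ L, ((Nout r v ∩ L).card + (Nout (rev r) v ∩ L).card) = L.card * (L.card - 1) := by
    rw [Finset.sum_congr rfl hpart, Finset.sum_const, smul_eq_mul]
  rw [Finset.sum_add_distrib, ← hsum] at h6
  have h7 : L.card * L.card ≤ ∑ v ∈ L, 2 * (Nout r v ∩ L).card := by
    calc L.card * L.card = ∑ _v ∈ L, L.card := by rw [Finset.sum_const, smul_eq_mul]
      _ ≤ _ := Finset.sum_le_sum h1
  rw [← Finset.mul_sum] at h7
  have h8 : 0 < L.card := Finset.card_pos.mpr hL
  have h9 : L.card * (L.card - 1) < L.card * L.card :=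
    Nat.mul_lt_mul_of_pos_left (by omega) h8
  omega

open Classical in
/-- Vertices of out-degree at most `K`. -/
noncomputable def Low (r : V → V → Prop) (K : ℕ) : Finset V :=
  univ.filter (fun v => (Nout r v).card ≤ K)

lemma mem_Low {r : V → V → Prop} {K : ℕ} {v : V} : v ∈ Low r K ↔ (Nout r v).card ≤ K := by
  simp [Low]

lemma card_Low_le {r : V → V → Prop} (hT : IsTournament r) (K : ℕ) :
    (Low r K).card ≤ 2 * K + 1 := by
  rcases (Low r K).eq_empty_or_nonempty with h | h
  · rw [h]; simp
  · obtain ⟨v, hv, h1⟩ := exists_small_out hT.rev h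
    -- use the total count inside `Low`: some vertex has large out-degree inside
    have h4 : (Nout r v ∩ Low r K) ∪ (Nout (rev r) v ∩ Low r K) = (Low r K).erase v := by
      ext w
      simp only [Finset.mem_union, Finset.mem_inter, mem_Nout, Finset.mem_erase, rev]
      constructor
      · rintro (⟨h, h'⟩ | ⟨h, h'⟩)
        · exact ⟨(hT.ne h).symm, h'⟩
        · exact ⟨hT.ne h, h'⟩
      · rintro ⟨h, h'⟩
        rcases hT.2.1 v w (Ne.symm h) with h5 | h5
        · exact Or.inl ⟨h5, h'⟩
        · exact Or.inr ⟨h5, h'⟩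
    have h5 : ((Low r K).erase v).card ≤
        (Nout r v ∩ Low r K).card + (Nout (rev r) v ∩ Low r K).card := by
      rw [← h4]
      exact Finset.card_union_le _ _
    rw [Finset.card_erase_of_mem hv] at h5
    have h6 : (Nout r v ∩ Low r K).card ≤ K :=
      (Finset.card_le_card Finset.inter_subset_left).trans (mem_Low.mp hv)
    omega

/-- Cut form of `k`-connectivity. -/
def Kc (r : V → V → Prop) (k : ℕ) : Prop :=
  k < Fintype.card V ∧ ∀ S : Finset V, S.card < k → Strong r (univ \ S)

lemma Kc.rev {r : V → V → Prop} {k : ℕ} (h : Kc r k) : Kc (H990.rev r) k :=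
  ⟨h.1, fun S hS => (h.2 S hS).rev⟩

lemma Kc.strong {r : V → V → Prop} {k : ℕ} (h : Kc r k) (hk : 0 < k) :
    Strong r (univ : Finset V) := by
  have := h.2 ∅ (by simpa using hk)
  simpa using this

/-- The connectivity criterion used throughout. -/
lemma Kc.boundary {r : V → V → Prop} {k : ℕ} (h : Kc r k) {X S : Finset V} (hX : X.Nonempty)
    (hS : S.card < k) (hd : Disjoint X S) (hcl : ∀ x ∈ X, ∀ y, r x y → y ∈ X ∪ S) :
    X ∪ S = univ := by
  have h1 : X = univ \ S := by
    apply (h.2 S hS).closed _ hX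
    · intro x hx y hy hr
      have h2 := hcl x hx y hr
      rw [Finset.mem_union] at h2
      rcases h2 with h2 | h2
      · exact h2
      · exact absurd h2 (Finset.mem_sdiff.mp hy).2
    · intro x hx
      rw [Finset.mem_sdiff]
      exact ⟨Finset.mem_univ _, Finset.disjoint_left.mp hd hx⟩
  rw [h1, Finset.sdiff_union_self_eq_union, Finset.union_eq_left.mpr (Finset.subset_univ _)]

/-- A set of `t` vertices minimising a function. -/
lemma exists_min_set (f : V → ℕ) (S : Finset V) (t : ℕ) (ht : t ≤ S.card) :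
    ∃ B : Finset V, B ⊆ S ∧ B.card = t ∧ ∀ b ∈ B, ∀ v ∈ S, v ∉ B → f b ≤ f v := by
  induction t with
  | zero => exact ⟨∅, by simp, by simp, by simp⟩
  | succ t ih =>
    obtain ⟨B, h1, h2, h3⟩ := ih (by omega)
    have hne : (S \ B).Nonempty := by
      rw [← Finset.card_pos, Finset.card_sdiff_of_subset h1]
      omega
    obtain ⟨c, hc, hmin⟩ := Finset.exists_min_image (S \ B) f hne
    rw [Finset.mem_sdiff] at hc
    refine ⟨insert c B, ?_, ?_, ?_⟩
    · exact Finset.insert_subset hc.1 h1
    · rw [Finset.card_insert_of_notMem hc.2, h2]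
    · intro b hb v hv hvB
      rw [Finset.mem_insert, not_or] at hvB
      rcases Finset.mem_insert.mp hb with rfl | hb
      · exact hmin v (Finset.mem_sdiff.mpr ⟨hv, hvB.2⟩)
      · exact h3 b hb v hv hvB.2

/-- The two extremal sets `A` and `B`. -/
lemma exists_AB (r : V → V → Prop) (t : ℕ) (ht : 2 * t ≤ Fintype.card V) :
    ∃ A B : Finset V, A.card = t ∧ B.card = t ∧ Disjoint A B ∧
      (∀ b ∈ B, ∀ v, v ∉ A ∪ B → (Nout r b).card ≤ (Nout r v).card) ∧
      (∀ a ∈ A, ∀ v, v ∉ A ∪ B → (Nout (rev r) a).card ≤ (Nout (rev r) v).card) := by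
  obtain ⟨B, h1, h2, h3⟩ := exists_min_set (fun v => (Nout r v).card) univ t
    (by rw [Finset.card_univ]; omega)
  obtain ⟨A, h4, h5, h6⟩ := exists_min_set (fun v => (Nout (rev r) v).card) (univ \ B) t
    (by rw [Finset.card_sdiff_of_subset h1, Finset.card_univ]; omega)
  refine ⟨A, B, h5, h2, ?_, ?_, ?_⟩
  · rw [Finset.disjoint_left]
    intro a ha
    exact (Finset.mem_sdiff.mp (h4 ha)).2
  · intro b hb v hv
    rw [Finset.mem_union, not_or] at hv
    exact h3 b hb v (Finset.mem_univ _) hv.2
  · intro a ha v hv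
    rw [Finset.mem_union, not_or] at hv
    exact h6 a ha v (Finset.mem_sdiff.mpr ⟨Finset.mem_univ _, hv.2⟩) hv.1

/-- Lemma D: a set which is almost closed and misses a vertex of `B` is small and consists of
vertices of small out-degree. -/
lemma lemmaD {r : V → V → Prop} (hT : IsTournament r) {A B W Y : Finset V} {t q : ℕ}
    (hA : A.card = t) (hB : B.card = t)
    (hB' : ∀ b ∈ B, ∀ v, v ∉ A ∪ B → (Nout r b).card ≤ (Nout r v).card)
    (hW : W.card ≤ q) (hcl : ∀ y ∈ Y, ∀ z, r y z → z ∈ Y ∪ W)
    (hb : ∃ b ∈ B, b ∉ Y ∪ W) : ∀ y ∈ Y, (Nout r y).card ≤ 2 * t + 3 * q := by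
  obtain ⟨b, hb, hbn⟩ := hb
  have hbY : Y ⊆ Nout r b := by
    intro y hy
    rw [mem_Nout]
    have h1 : y ≠ b := by
      rintro rfl
      exact hbn (Finset.mem_union_left _ hy)
    exact hT.of_not h1 (fun h => hbn (hcl y hy b h))
  have hYW : ∀ y ∈ Y, Nout r y ⊆ (Nout r y ∩ Y) ∪ W := by
    intro y hy z hz
    have h1 := hcl y hy z (mem_Nout.mp hz)
    rw [Finset.mem_union] at h1 ⊢
    rcases h1 with h1 | h1
    · exact Or.inl (Finset.mem_inter.mpr ⟨hz, h1⟩)
    · exact Or.inr h1
  have hcardY : Y.card ≤ 2 * t + 2 * q := by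
    by_cases hne : (Y \ (A ∪ B)).Nonempty
    · obtain ⟨y, hy, h1⟩ := exists_small_out hT hne
      rw [Finset.mem_sdiff] at hy
      have h2 := hB' b hb y hy.2
      have h3 : Y.card ≤ (Nout r y).card := (Finset.card_le_card hbY).trans h2
      have h4 : (Nout r y).card ≤ (Nout r y ∩ Y).card + W.card :=
        (Finset.card_le_card (hYW y hy.1)).trans (Finset.card_union_le _ _)
      have h5 : (Nout r y ∩ Y).card ≤ (Nout r y ∩ (Y \ (A ∪ B))).card + (Y ∩ (A ∪ B)).card := by
        have h6 : Nout r y ∩ Y ⊆ (Nout r y ∩ (Y \ (A ∪ B))) ∪ (Y ∩ (A ∪ B)) := by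
          intro z hz
          simp only [Finset.mem_union, Finset.mem_inter, Finset.mem_sdiff] at hz ⊢
          tauto
        exact (Finset.card_le_card h6).trans (Finset.card_union_le _ _)
      have h7 : (Y \ (A ∪ B)).card + (Y ∩ (A ∪ B)).card = Y.card :=
        Finset.card_sdiff_add_card_inter _ _
      have h8 : (Y ∩ (A ∪ B)).card ≤ 2 * t := by
        calc (Y ∩ (A ∪ B)).card ≤ (A ∪ B).card := Finset.card_le_card Finset.inter_subset_right
          _ ≤ A.card + B.card := Finset.card_union_le _ _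
          _ = 2 * t := by omega
      omega
    · rw [Finset.not_nonempty_iff_eq_empty, Finset.sdiff_eq_empty_iff_subset] at hne
      have h8 : Y.card ≤ 2 * t := by
        calc Y.card ≤ (A ∪ B).card := Finset.card_le_card hne
          _ ≤ A.card + B.card := Finset.card_union_le _ _
          _ = 2 * t := by omega
      omega
  intro y hy
  have h4 : (Nout r y).card ≤ (Nout r y ∩ Y).card + W.card :=
    (Finset.card_le_card (hYW y hy)).trans (Finset.card_union_le _ _)
  have h5 : (Nout r y ∩ Y).card ≤ Y.card := Finset.card_le_card Finset.inter_subset_right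
  omega

end H990
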