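import Pool.Agent.H990_Song.Exchange

/-! The case analysis behind the upper bound. -/

namespace H990

open Finset

set_option linter.unusedSectionVars false

variable {V : Type*} [DecidableEq V] [Fintype V]

/-- The exceptional set. -/
noncomputable def Eset (r : V → V → Prop) (A B : Finset V) (K : ℕ) : Finset V :=
  (A ∪ B) ∪ ((Low r K ∪ NoutS r (Low r K)) ∪ (Low (rev r) K ∪ NoutS (rev r) (Low (rev r) K)))

lemma card_Eset_le {r : V → V → Prop} (hT : IsTournament r) {A B : Finset V} {t K : ℕ}
    (hA : A.card = t) (hB : B.card = t) :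
    (Eset r A B K).card ≤ 2 * t + 2 * ((2 * K + 1) * (K + 1)) := by
  have h1 : ∀ r' : V → V → Prop, IsTournament r' →
      (Low r' K ∪ NoutS r' (Low r' K)).card ≤ (2 * K + 1) * (K + 1) := by
    intro r' hT'
    have h2 := card_Low_le hT' K
    have h3 : (NoutS r' (Low r' K)).card ≤ (Low r' K).card * K :=
      card_NoutS_le (fun v hv => mem_Low.mp hv)
    calc (Low r' K ∪ NoutS r' (Low r' K)).card ≤ (Low r' K).card + (NoutS r' (Low r' K)).card :=
          Finset.card_union_le _ _
      _ ≤ (Low r' K).card + (Low r' K).card * K := by omega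
      _ = (Low r' K).card * (K + 1) := by ring
      _ ≤ (2 * K + 1) * (K + 1) := Nat.mul_le_mul_right _ h2
  have h4 := h1 r hT
  have h5 := h1 (rev r) hT.rev
  unfold Eset
  calc _ ≤ (A ∪ B).card + ((Low r K ∪ NoutS r (Low r K)) ∪
        (Low (rev r) K ∪ NoutS (rev r) (Low (rev r) K))).card := Finset.card_union_le _ _
    _ ≤ (A.card + B.card) + ((Low r K ∪ NoutS r (Low r K)).card +
        (Low (rev r) K ∪ NoutS (rev r) (Low (rev r) K)).card) :=
          Nat.add_le_add (Finset.card_union_le _ _) (Finset.card_union_le _ _)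
    _ ≤ _ := by omega

/-- Lemma W. -/
lemma lemmaW {r : V → V → Prop} (hT : IsTournament r) {t q : ℕ} (hk : Kc r t) (ht : 0 < t)
    {A B W : Finset V} (hA : A.card = t) (hB : B.card = t)
    (hB' : ∀ b ∈ B, ∀ v, v ∉ A ∪ B → (Nout r b).card ≤ (Nout r v).card)
    (hA' : ∀ a ∈ A, ∀ v, v ∉ A ∪ B → (Nout (rev r) a).card ≤ (Nout (rev r) v).card)
    (hW : W.card ≤ q) (hWE : Disjoint W (Eset r A B (2 * t + 3 * q)))
    (hpath : ∀ Y : Finset V, B ⊆ Y → Disjoint A Y → ∃ y ∈ Y, ∃ z, z ∉ Y ∧ z ∉ W ∧ r y z) :
    Strong r (univ \ W) := by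
  have hWE' : ∀ v, v ∈ Eset r A B (2 * t + 3 * q) → v ∉ W := by
    intro v hv hw
    exact Finset.disjoint_left.mp hWE hw hv
  -- one-sided statement
  have side : ∀ r' : V → V → Prop, IsTournament r' → Kc r' t →
      ∀ A' B' : Finset V, A'.card = t → B'.card = t →
      (∀ b ∈ B', ∀ v, v ∉ A' ∪ B' → (Nout r' b).card ≤ (Nout r' v).card) →
      (∀ v ∈ B' ∪ (Low r' (2 * t + 3 * q) ∪ NoutS r' (Low r' (2 * t + 3 * q))), v ∉ W) →
      ∀ Y : Finset V, Y.Nonempty → Disjoint Y W → (∀ y ∈ Y, ∀ z, r' y z → z ∈ Y ∪ W) →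
      B' ⊆ Y := by
    intro r' hT' hk' A' B' hA1 hB1 hB2 hE Y hY hYW hcl
    by_contra hcon
    rw [Finset.not_subset] at hcon
    obtain ⟨b, hb, hbY⟩ := hcon
    have hbW : b ∉ W := hE b (Finset.mem_union_left _ hb)
    have h1 := lemmaD (q := q) hT' hA1 hB1 hB2 hW hcl ⟨b, hb, by
      rw [Finset.mem_union, not_or]; exact ⟨hbY, hbW⟩⟩
    have h2 : Y = univ := by
      apply (hk'.strong ht).closed (Finset.subset_univ _) hY
      intro y hy z _ hr
      rcases Finset.mem_union.mp (hcl y hy z hr) with h3 | h3
      · exact h3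
      · exfalso
        apply hE z _ h3
        apply Finset.mem_union_right
        apply Finset.mem_union_right
        rw [mem_NoutS]
        exact ⟨y, mem_Low.mpr (h1 y hy), hr⟩
    rw [h2] at hbY
    exact hbY (Finset.mem_univ _)
  apply strong_of_closed
  intro Y hYs hY hcl
  have hYW : Disjoint Y W := by
    rw [Finset.disjoint_left]
    intro x hx
    exact (Finset.mem_sdiff.mp (hYs hx)).2
  have hcl' : ∀ y ∈ Y, ∀ z, r y z → z ∈ Y ∪ W := by
    intro y hy z hr
    rw [Finset.mem_union]
    by_cases hz : z ∈ W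
    · exact Or.inr hz
    · exact Or.inl (hcl y hy z (Finset.mem_sdiff.mpr ⟨Finset.mem_univ _, hz⟩) hr)
  have hBY : B ⊆ Y := by
    apply side r hT hk A B hA hB hB' _ Y hY hYW hcl'
    intro v hv
    apply hWE'
    unfold Eset
    simp only [Finset.mem_union] at hv ⊢
    tauto
  by_contra hne
  have hAZ : A ⊆ (univ \ W) \ Y := by
    apply side (rev r) hT.rev hk.rev B A hB hA
    · intro a ha v hv
      rw [Finset.union_comm] at hv
      exact hA' a ha v hv
    · intro v hv
      apply hWE'
      unfold Eset
      simp only [Finset.mem_union] at hv ⊢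
      tauto
    · rw [Finset.sdiff_nonempty]
      intro h
      exact hne (Finset.Subset.antisymm hYs h)
    · rw [Finset.disjoint_left]
      intro x hx
      exact (Finset.mem_sdiff.mp (Finset.mem_sdiff.mp hx).1).2
    · intro y hy z hr
      rw [Finset.mem_sdiff] at hy
      rw [Finset.mem_union]
      by_cases hz : z ∈ W
      · exact Or.inr hz
      · left
        rw [Finset.mem_sdiff]
        refine ⟨Finset.mem_sdiff.mpr ⟨Finset.mem_univ _, hz⟩, ?_⟩
        intro hzY
        exact hy.2 (hcl z hzY y hy.1 hr)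
  obtain ⟨y, hy, z, hz1, hz2, hr⟩ := hpath Y hBY (by
    rw [Finset.disjoint_left]
    intro a ha
    exact (Finset.mem_sdiff.mp (hAZ ha)).2)
  rcases Finset.mem_union.mp (hcl' y hy z hr) with h | h
  · exact hz1 h
  · exact hz2 h

/-- A track gives the path hypothesis. -/
lemma IsStep.path {r : V → V → Prop} {A B W : Finset V} {τ : V → V} (hτ : IsStep r A B τ)
    {b : V} (hb : b ∈ B) (hW : Disjoint (track A τ b) W) :
    ∀ Y : Finset V, B ⊆ Y → Disjoint A Y → ∃ y ∈ Y, ∃ z, z ∉ Y ∧ z ∉ W ∧ r y z := by
  intro Y hBY hAY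
  obtain ⟨i, hi, h1, h2⟩ := hτ.crossing hb (fun v => v ∈ Y) (hBY hb)
    (fun a ha _ h => Finset.disjoint_left.mp hAY ha h)
  refine ⟨_, h1, _, h2, ?_, hτ.track_arc hb hi⟩
  exact Finset.disjoint_left.mp hW (mem_track.mpr ⟨i + 1, hi, rfl⟩)

/-- Strength of a sequence with forward unit arcs and backward arcs of length two. -/
lemma strong_of_seq {r : V → V → Prop} (p : ℕ → V) (l : ℕ) (hl : 3 ≤ l)
    (h1 : ∀ s, s + 1 < l → r (p s) (p (s + 1))) (h2 : ∀ s, s + 2 < l → r (p (s + 2)) (p s)) :
    Strong r ((Finset.range l).image p) := by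
  apply strong_of_closed
  intro X hX hne hcl
  have hmem : ∀ s < l, p s ∈ (Finset.range l).image p := fun s hs =>
    Finset.mem_image_of_mem _ (Finset.mem_range.mpr hs)
  obtain ⟨x, hx⟩ := hne
  obtain ⟨s, hs, rfl⟩ := Finset.mem_image.mp (hX hx)
  rw [Finset.mem_range] at hs
  have up : ∀ k, s + k < l → p (s + k) ∈ X := by
    intro k
    induction k with
    | zero => intro _; exact hx
    | succ k ih =>
      intro hk
      exact hcl _ (ih (by omega)) _ (hmem _ hk) (h1 _ hk)
  have hlast : p (l - 1) ∈ X := by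
    have := up (l - 1 - s) (by omega)
    have h3 : s + (l - 1 - s) = l - 1 := by omega
    rwa [h3] at this
  have hl3 : p (l - 3) ∈ X := by
    have h3 := h2 (l - 3) (by omega)
    have h4 : l - 3 + 2 = l - 1 := by omega
    rw [h4] at h3
    exact hcl _ hlast _ (hmem _ (by omega)) h3
  have hl2 : p (l - 2) ∈ X := by
    have h3 := h1 (l - 3) (by omega)
    have h4 : l - 3 + 1 = l - 2 := by omega
    rw [h4] at h3
    exact hcl _ hl3 _ (hmem _ (by omega)) h3
  have down : ∀ k, k + 2 ≤ l → p (l - 1 - k) ∈ X ∧ p (l - 2 - k) ∈ X := by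
    intro k
    induction k with
    | zero => intro _; exact ⟨by simpa using hlast, by simpa using hl2⟩
    | succ k ih =>
      intro hk
      obtain ⟨h5, h6⟩ := ih (by omega)
      have h7 : l - 1 - (k + 1) = l - 2 - k := by omega
      refine ⟨by rw [h7]; exact h6, ?_⟩
      have h8 := h2 (l - 2 - (k + 1)) (by omega)
      have h9 : l - 2 - (k + 1) + 2 = l - 1 - k := by omega
      rw [h9] at h8
      exact hcl _ h5 _ (hmem _ (by omega)) h8
  apply Finset.Subset.antisymm hX
  intro y hy
  obtain ⟨s', hs', rfl⟩ := Finset.mem_image.mp hy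
  rw [Finset.mem_range] at hs'
  rcases Nat.lt_or_ge s' (l - 1) with h | h
  · have h5 := (down (l - 2 - s') (by omega)).2
    have h6 : l - 2 - (l - 2 - s') = s' := by omega
    rwa [h6] at h5
  · have h6 : s' = l - 1 := by omega
    rw [h6]
    exact hlast

/-- The long case: blocks on a long track. -/
lemma long_blocks {r : V → V → Prop} {ι : Type*} [Fintype ι] {A B E : Finset V} {τ : V → V}
    (hτ : IsStep r A B τ) (hτ2 : ∀ v, v ∉ A → τ v ≠ v → τ v ∉ A → r (τ (τ v)) v)
    {b : V} (hb : b ∈ B) {M e t : ℕ} (hE : E.card ≤ e) (hι : Fintype.card ι ≤ t)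
    (hlong : M * (e + t) ≤ tend A τ b + 1) (l : ι → ℕ) (hl3 : ∀ i, 3 ≤ l i)
    (hlM : ∀ i, l i ≤ M) :
    ∃ F : ι → Finset V, (∀ i, Strong r (F i)) ∧ (∀ i, (F i).card = l i) ∧
      (∀ i j, i ≠ j → Disjoint (F i) (F j)) ∧ (∀ i, Disjoint (F i) E) ∧
      ∀ i, F i ⊆ track A τ b := by
  classical
  set p : ℕ → V := fun s => τ^[s] b with hp
  -- indices of blocks
  have hidx : ∀ j < e + t, ∀ s < M, M * j + s ≤ tend A τ b := by
    intro j hj s hs
    have h1 : M * (j + 1) ≤ M * (e + t) := Nat.mul_le_mul_left _ (by omega)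
    have h2 : M * (j + 1) = M * j + M := by ring
    omega
  set good : Finset ℕ := (Finset.range (e + t)).filter (fun j => ∀ s < M, p (M * j + s) ∉ E)
    with hgood
  have hbad : ((Finset.range (e + t)).filter (fun j => ¬ ∀ s < M, p (M * j + s) ∉ E)).card
      ≤ E.card := by
    have h1 : ∀ j ∈ (Finset.range (e + t)).filter (fun j => ¬ ∀ s < M, p (M * j + s) ∉ E),
        ∃ s < M, p (M * j + s) ∈ E := by
      intro j hj
      have := (Finset.mem_filter.mp hj).2
      push Not at this
      exact this
    choose! g hg1 hg2 using h1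
    apply Finset.card_le_card_of_injOn (fun j => p (M * j + g j))
    · intro j hj
      exact hg2 j hj
    · intro j hj j' hj' h
      have hj1 := Finset.mem_coe.mp hj
      have hj1' := Finset.mem_coe.mp hj'
      have h2 := hg1 j hj1
      have h3 := hg1 j' hj1'
      have h4 : M * j + g j = M * j' + g j' := by
        apply hτ.track_inj hb (hidx j (Finset.mem_range.mp (Finset.mem_filter.mp hj1).1) _ h2)
          (hidx j' (Finset.mem_range.mp (Finset.mem_filter.mp hj1').1) _ h3) h
      have h5 : (M * j + g j) / M = j := by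
        rw [Nat.mul_add_div (by omega), Nat.div_eq_of_lt h2, add_zero]
      have h6 : (M * j' + g j') / M = j' := by
        rw [Nat.mul_add_div (by omega), Nat.div_eq_of_lt h3, add_zero]
      rw [← h5, ← h6, h4]
  have hgoodcard : t ≤ good.card := by
    have h1 := Finset.card_filter_add_card_filter_not (s := Finset.range (e + t))
      (fun j => ∀ s < M, p (M * j + s) ∉ E)
    rw [Finset.card_range, ← hgood] at h1
    omega
  -- an injection from `ι` to the good blocks
  obtain ⟨g⟩ : Nonempty (ι ↪ {j // j ∈ good}) := by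
    apply Function.Embedding.nonempty_of_card_le
    rw [Fintype.card_coe]
    omega
  have hglt : ∀ i, (g i).1 < e + t := fun i =>
    Finset.mem_range.mp (Finset.mem_filter.mp (g i).2).1
  have hgE : ∀ i, ∀ s < M, p (M * (g i).1 + s) ∉ E := fun i =>
    (Finset.mem_filter.mp (g i).2).2
  refine ⟨fun i => (Finset.range (l i)).image (fun s => p (M * (g i).1 + s)), ?_, ?_, ?_, ?_, ?_⟩
  · intro i
    have hA : ∀ s, s + 1 < l i → p (M * (g i).1 + s) ∉ A := by
      intro s hs
      apply (hτ.tend_spec hb).2
      have h1 := hidx (g i).1 (hglt i) (s + 1) (by have := hlM i; omega)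
      omega
    apply strong_of_seq _ _ (hl3 i)
    · intro s hs
      apply hτ.track_arc hb
      have h1 := hidx (g i).1 (hglt i) (s + 1) (by have := hlM i; omega)
      omega
    · intro s hs
      have h1 : p (M * (g i).1 + (s + 2)) = τ (τ (p (M * (g i).1 + s))) := by
        simp only [hp]
        rw [show M * (g i).1 + (s + 2) = (M * (g i).1 + s) + 1 + 1 from rfl,
          Function.iterate_succ_apply', Function.iterate_succ_apply']
      have h2 : p (M * (g i).1 + (s + 1)) = τ (p (M * (g i).1 + s)) := by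
        simp only [hp]
        rw [show M * (g i).1 + (s + 1) = (M * (g i).1 + s) + 1 from rfl,
          Function.iterate_succ_apply']
      show r (p (M * (g i).1 + (s + 2))) (p (M * (g i).1 + s))
      rw [h1]
      apply hτ2 _ (hA s (by omega))
      · rw [← h2]
        intro h3
        have h4 := hidx (g i).1 (hglt i) (s + 1) (by have := hlM i; omega)
        have h5 := hτ.track_inj hb (i := M * (g i).1 + (s + 1)) (j := M * (g i).1 + s)
          h4 (by omega) h3
        omega
      · rw [← h2]
        exact hA (s + 1) (by omega)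
  · intro i
    rw [Finset.card_image_of_injOn, Finset.card_range]
    intro s hs s' hs' h
    rw [Finset.coe_range, Set.mem_Iio] at hs hs'
    have h1 := hlM i
    have h2 := hτ.track_inj hb (hidx (g i).1 (hglt i) s (by omega))
      (hidx (g i).1 (hglt i) s' (by omega)) h
    omega
  · intro i j hij
    rw [Finset.disjoint_left]
    intro v hv hv'
    obtain ⟨s, hs, h⟩ := Finset.mem_image.mp hv
    obtain ⟨s', hs', h'⟩ := Finset.mem_image.mp hv'
    rw [Finset.mem_range] at hs hs'
    have h1 := hlM i
    have h1' := hlM j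
    have h2 := hτ.track_inj hb (hidx (g i).1 (hglt i) s (by omega))
      (hidx (g j).1 (hglt j) s' (by omega)) (h.trans h'.symm)
    have h5 : (M * (g i).1 + s) / M = (g i).1 := by
      rw [Nat.mul_add_div (by omega), Nat.div_eq_of_lt (by omega), add_zero]
    have h6 : (M * (g j).1 + s') / M = (g j).1 := by
      rw [Nat.mul_add_div (by omega), Nat.div_eq_of_lt (by omega), add_zero]
    apply hij
    apply g.injective
    apply Subtype.ext
    rw [← h5, ← h6, h2]
  · intro i
    rw [Finset.disjoint_left]
    intro v hv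
    obtain ⟨s, hs, rfl⟩ := Finset.mem_image.mp hv
    rw [Finset.mem_range] at hs
    exact hgE i s (by have := hlM i; omega)
  · intro i v hv
    obtain ⟨s, hs, rfl⟩ := Finset.mem_image.mp hv
    rw [Finset.mem_range] at hs
    exact mem_track.mpr ⟨_, hidx (g i).1 (hglt i) s (by have := hlM i; omega), rfl⟩

/-- Greedy choice of disjoint strong sets of size `M`, or a bounded hitting set. -/
lemma greedy (r : V → V → Prop) (S0 : Finset V) (M s : ℕ) :
    (∃ F : Fin s → Finset V, (∀ i, Strong r (F i)) ∧ (∀ i, (F i).card = M) ∧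
      (∀ i, Disjoint (F i) S0) ∧ ∀ i j, i ≠ j → Disjoint (F i) (F j)) ∨
    (∃ U : Finset V, U.card ≤ s * M ∧
      ∀ X : Finset V, Strong r X → X.card = M → ¬ Disjoint X (S0 ∪ U)) := by
  classical
  induction s with
  | zero =>
    left
    exact ⟨fun i => i.elim0, fun i => i.elim0, fun i => i.elim0, fun i => i.elim0,
      fun i => i.elim0⟩
  | succ s ih =>
    rcases ih with ⟨F, h1, h2, h3, h4⟩ | ⟨U, h1, h2⟩
    · by_cases hX : ∃ X : Finset V, Strong r X ∧ X.card = M ∧
          Disjoint X (S0 ∪ univ.biUnion F)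
      · obtain ⟨X, hX1, hX2, hX3⟩ := hX
        rw [Finset.disjoint_union_right, Finset.disjoint_biUnion_right] at hX3
        left
        refine ⟨Fin.cons X F, ?_, ?_, ?_, ?_⟩
        · intro i
          refine Fin.cases ?_ (fun i => ?_) i
          · simpa using hX1
          · simpa using h1 i
        · intro i
          refine Fin.cases ?_ (fun i => ?_) i
          · simpa using hX2
          · simpa using h2 i
        · intro i
          refine Fin.cases ?_ (fun i => ?_) i
          · simpa using hX3.1
          · simpa using h3 i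
        · intro i j
          refine Fin.cases ?_ (fun i => ?_) i
          · refine Fin.cases ?_ (fun j => ?_) j
            · intro h; exact absurd rfl h
            · intro _
              simpa using hX3.2 j (Finset.mem_univ _)
          · refine Fin.cases ?_ (fun j => ?_) j
            · intro _
              simpa using (hX3.2 i (Finset.mem_univ _)).symm
            · intro h
              have hij : i ≠ j := fun h' => h (by rw [h'])
              simpa using h4 i j hij
      · right
        push Not at hX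
        refine ⟨univ.biUnion F, ?_, hX⟩
        calc (univ.biUnion F).card ≤ (univ : Finset (Fin s)).card * M :=
              Finset.card_biUnion_le_card_mul _ _ _ (fun i _ => (h2 i).le)
          _ = s * M := by simp
          _ ≤ (s + 1) * M := Nat.mul_le_mul_right _ (Nat.le_succ s)
    · right
      exact ⟨U, h1.trans (Nat.mul_le_mul_right _ (Nat.le_succ s)), h2⟩

/-- Without strong sets of size `M` off `S'`, some vertex off `S'` has bounded out-degree. -/
lemma small_degree {r : V → V → Prop} (hT : IsTournament r) {S' : Finset V} {M : ℕ}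
    (h3 : 3 ≤ M) (hno : ∀ X : Finset V, Strong r X → X.card = M → ¬ Disjoint X S')
    (hne : S'.card < Fintype.card V) :
    ∃ v, v ∉ S' ∧ (Nout r v).card ≤ M + S'.card := by
  classical
  set fam : Finset (Finset V) := univ.filter (fun X => X.Nonempty ∧ Disjoint X S' ∧
    ∀ x ∈ X, ∀ y, r x y → y ∈ X ∪ S') with hfam
  have hfne : fam.Nonempty := by
    refine ⟨univ \ S', ?_⟩
    rw [hfam, Finset.mem_filter]
    refine ⟨Finset.mem_univ _, ?_, ?_, ?_⟩
    · rw [← Finset.card_pos, Finset.card_sdiff_of_subset (Finset.subset_univ _), Finset.card_univ]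
      omega
    · exact Finset.sdiff_disjoint
    · intro x _ y _
      simp
  obtain ⟨X, hX, hmin⟩ := Finset.exists_min_image fam Finset.card hfne
  rw [hfam, Finset.mem_filter] at hX
  obtain ⟨-, hXne, hXS, hXcl⟩ := hX
  have hstrong : Strong r X := by
    apply strong_of_closed
    intro Y hYX hY hcl
    have hYf : Y ∈ fam := by
      rw [hfam, Finset.mem_filter]
      refine ⟨Finset.mem_univ _, hY, Finset.disjoint_of_subset_left hYX hXS, ?_⟩
      intro y hy z hr
      rcases Finset.mem_union.mp (hXcl y (hYX hy) z hr) with h | h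
      · exact Finset.mem_union_left _ (hcl y hy z h hr)
      · exact Finset.mem_union_right _ h
    exact Finset.eq_of_subset_of_card_le hYX (hmin Y hYf)
  have hlt : X.card < M := by
    by_contra hge
    push Not at hge
    obtain ⟨X', h1, h2, h4⟩ := exists_strong_subset hT hstrong h3 hge
    exact hno X' h2 h4 (Finset.disjoint_of_subset_left h1 hXS)
  obtain ⟨v, hv⟩ := hXne
  refine ⟨v, Finset.disjoint_left.mp hXS hv, ?_⟩
  have h1 : Nout r v ⊆ X ∪ S' := by
    intro y hy
    exact hXcl v hv y (mem_Nout.mp hy)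
  have h2 := (Finset.card_le_card h1).trans (Finset.card_union_le _ _)
  omega

/-- Disjoint subsets of prescribed sizes. -/
lemma exists_disj_family {ι : Type*} [Fintype ι] [DecidableEq ι] (m : ι → ℕ) (D : Finset V)
    (h : ∑ i, m i ≤ D.card) : ∃ F : ι → Finset V, (∀ i, F i ⊆ D) ∧ (∀ i, (F i).card = m i) ∧
      ∀ i j, i ≠ j → Disjoint (F i) (F j) := by
  classical
  have key : ∀ s : Finset ι, ∑ i ∈ s, m i ≤ D.card → ∃ F : ι → Finset V,
      (∀ i ∈ s, F i ⊆ D) ∧ (∀ i ∈ s, (F i).card = m i) ∧
      ∀ i ∈ s, ∀ j ∈ s, i ≠ j → Disjoint (F i) (F j) := by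
    intro s
    induction s using Finset.induction_on with
    | empty => intro _; exact ⟨fun _ => ∅, by simp, by simp, by simp⟩
    | insert a s ha ih =>
      intro hs
      rw [Finset.sum_insert ha] at hs
      obtain ⟨F, h1, h2, h3⟩ := ih (by omega)
      have hU : (s.biUnion F) ⊆ D := by
        intro v hv
        obtain ⟨i, hi, hv'⟩ := Finset.mem_biUnion.mp hv
        exact h1 i hi hv'
      have hUc : (s.biUnion F).card ≤ ∑ i ∈ s, m i := by
        calc (s.biUnion F).card ≤ ∑ i ∈ s, (F i).card := Finset.card_biUnion_le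
          _ = _ := Finset.sum_congr rfl h2
      obtain ⟨X, hX1, hX2⟩ := Finset.exists_subset_card_eq (s := D \ s.biUnion F) (n := m a) (by
        rw [Finset.card_sdiff_of_subset hU]; omega)
      have hXF : ∀ i ∈ s, Disjoint X (F i) := by
        intro i hi
        rw [Finset.disjoint_left]
        intro v hv hv'
        exact (Finset.mem_sdiff.mp (hX1 hv)).2 (Finset.mem_biUnion.mpr ⟨i, hi, hv'⟩)
      refine ⟨Function.update F a X, ?_, ?_, ?_⟩
      · intro i hi
        rcases eq_or_ne i a with rfl | hia
        · rw [Function.update_self]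
          exact hX1.trans Finset.sdiff_subset
        · rw [Function.update_of_ne hia]
          exact h1 i ((Finset.mem_insert.mp hi).resolve_left hia)
      · intro i hi
        rcases eq_or_ne i a with rfl | hia
        · rw [Function.update_self]
          exact hX2
        · rw [Function.update_of_ne hia]
          exact h2 i ((Finset.mem_insert.mp hi).resolve_left hia)
      · intro i hi j hj hij
        rcases eq_or_ne i a with rfl | hia
        · have hja : j ≠ i := Ne.symm hij
          rw [Function.update_self, Function.update_of_ne hja]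
          exact hXF j ((Finset.mem_insert.mp hj).resolve_left hja)
        · rcases eq_or_ne j a with rfl | hja
          · rw [Function.update_self, Function.update_of_ne hia]
            exact (hXF i ((Finset.mem_insert.mp hi).resolve_left hia)).symm
          · rw [Function.update_of_ne hia, Function.update_of_ne hja]
            exact h3 i ((Finset.mem_insert.mp hi).resolve_left hia) j
              ((Finset.mem_insert.mp hj).resolve_left hja) hij
  obtain ⟨F, h1, h2, h3⟩ := key univ h
  exact ⟨F, fun i => h1 i (Finset.mem_univ _), fun i => h2 i (Finset.mem_univ _),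
    fun i j hij => h3 i (Finset.mem_univ _) j (Finset.mem_univ _) hij⟩

/-- A blown up triangle is strong. -/
lemma strong_triangle {r : V → V → Prop} {o x : V} {D : Finset V} (hD : D.Nonempty)
    (hox : r o x) (hxd : ∀ d ∈ D, r x d) (hdo : ∀ d ∈ D, r d o) :
    Strong r (insert o (insert x D)) := by
  apply strong_of_closed
  intro X hX hne hcl
  have ho : o ∈ insert o (insert x D) := Finset.mem_insert_self _ _
  have hx : x ∈ insert o (insert x D) := Finset.mem_insert_of_mem (Finset.mem_insert_self _ _)
  have hd : ∀ d ∈ D, d ∈ insert o (insert x D) := fun d h =>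
    Finset.mem_insert_of_mem (Finset.mem_insert_of_mem h)
  have hdX : ∀ d ∈ D, d ∈ X → o ∈ X := fun d h1 h2 => hcl d h2 o ho (hdo d h1)
  have hoX : o ∈ X → x ∈ X := fun h => hcl o h x hx hox
  have hxX : x ∈ X → ∀ d ∈ D, d ∈ X := fun h d h1 => hcl x h d (hd d h1) (hxd d h1)
  obtain ⟨d, hdD⟩ := hD
  obtain ⟨v, hv⟩ := hne
  have hoX' : o ∈ X := by
    rcases Finset.mem_insert.mp (hX hv) with rfl | h
    · exact hv
    · rcases Finset.mem_insert.mp h with rfl | h
      · exact hdX d hdD (hxX hv d hdD)
      · exact hdX v h hv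
  apply Finset.Subset.antisymm hX
  apply Finset.insert_subset hoX'
  apply Finset.insert_subset (hoX hoX')
  intro d h
  exact hxX (hoX hoX') d h

/-- What is trapped lies in the pattern set. -/
lemma trap {r : V → V → Prop} (hT : IsTournament r) {W P Ψ : Finset V} {d0 b : V} {Kb q : ℕ}
    (hW : W.card ≤ q) (hPW : Disjoint P W) (hdW : d0 ∉ W) (hb : b ∈ P)
    (hKb : (Nout r b).card ≤ Kb) (hΨ : Low r (Kb + q) ⊆ Ψ)
    (hreach : Disjoint (Zcl r W d0) P) : Zcl r W d0 ⊆ (Nout r d0 ∩ Ψ) \ P := by
  set Z := Zcl r W d0 with hZ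
  have hZcl : ∀ z ∈ Z, ∀ y, r z y → y ∈ Z ∪ W := Zcl_closed
  have hdZ : d0 ∉ Z := Zcl_not_mem
  have hbZ : b ∉ Z := fun h => Finset.disjoint_left.mp hreach h hb
  have hbW : b ∉ W := Finset.disjoint_left.mp hPW hb
  have hcard : Z.card ≤ Kb := by
    refine le_trans (Finset.card_le_card ?_) hKb
    intro z hz
    rw [mem_Nout]
    have h1 : z ≠ b := by
      rintro rfl
      exact hbZ hz
    apply hT.of_not h1
    intro h
    rcases Finset.mem_union.mp (hZcl z hz b h) with h2 | h2
    · exact hbZ h2
    · exact hbW h2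
  intro z hz
  rw [Finset.mem_sdiff, Finset.mem_inter]
  refine ⟨⟨?_, ?_⟩, Finset.disjoint_left.mp hreach hz⟩
  · rw [mem_Nout]
    have h1 : z ≠ d0 := by
      rintro rfl
      exact hdZ hz
    apply hT.of_not h1
    intro h
    rcases Finset.mem_union.mp (hZcl z hz d0 h) with h2 | h2
    · exact hdZ h2
    · exact hdW h2
  · apply hΨ
    rw [mem_Low]
    have h1 : Nout r z ⊆ Z ∪ W := fun y hy => hZcl z hz y (mem_Nout.mp hy)
    have h2 := (Finset.card_le_card h1).trans (Finset.card_union_le _ _)
    omega

end H990
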