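import Pool.Agent.H990_Song.Upper

/-! The lower bound construction: a cyclic blow-up. -/

namespace H990

open Finset

/-- Blocks `[0,s)`, `[s,2s)`, `[2s,n)`: arcs go upwards except from the third block to the first. -/
def lowRel (s n : ℕ) (i j : Fin n) : Prop :=
  (i.val < j.val ∧ ¬ (i.val < s ∧ 2 * s ≤ j.val)) ∨ (2 * s ≤ i.val ∧ j.val < s)

lemma lowRel_tournament (s n : ℕ) : IsTournament (lowRel s n) := by
  refine ⟨?_, ?_, ?_⟩
  · intro x h
    unfold lowRel at h
    omega
  · intro x y hxy
    have h1 : x.val ≠ y.val := fun h => hxy (Fin.ext h)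
    unfold lowRel
    omega
  · intro x y h h'
    unfold lowRel at h h'
    omega

/-- A survivor in a block of at least `s` vertices. -/
lemma survivor {s n : ℕ} (R : Finset (Fin n)) (hR : R.card < s) (a : ℕ) (ha : a + s ≤ n) :
    ∃ v : Fin n, v ∉ R ∧ a ≤ v.val ∧ v.val < a + s := by
  by_contra hcon
  push Not at hcon
  have hmem : ∀ i : Fin s, (⟨a + i.val, by omega⟩ : Fin n) ∈ R := by
    intro i
    by_contra hv
    have h1 := hcon _ hv (Nat.le_add_right a i.val)
    have h2 : (⟨a + i.val, by omega⟩ : Fin n).val = a + i.val := rfl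
    omega
  have h1 : (Finset.univ : Finset (Fin s)).card ≤ R.card := by
    apply Finset.card_le_card_of_injOn (fun i : Fin s => (⟨a + i.val, by omega⟩ : Fin n))
    · intro i _
      exact hmem i
    · intro i _ j _ h
      have h2 : a + i.val = a + j.val := congrArg Fin.val h
      exact Fin.ext (by omega)
  rw [Finset.card_univ, Fintype.card_fin] at h1
  omega

lemma lowRel_conn {s n k : ℕ} (hk : k ≤ s) (hn : 3 * s < n) : KConnected (lowRel s n) k := by
  refine ⟨by rw [Fintype.card_fin]; omega, ?_⟩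
  intro R hR u v hu hv
  obtain ⟨a, ha, ha1, ha2⟩ := survivor R (s := s) (by omega) 0 (by omega)
  obtain ⟨b, hb, hb1, hb2⟩ := survivor R (s := s) (by omega) s (by omega)
  obtain ⟨c, hc, hc1, hc2⟩ := survivor R (s := s) (by omega) (2 * s) (by omega)
  have step : ∀ x y : Fin n, x ∉ R → y ∉ R → lowRel s n x y →
      Relation.ReflTransGen (fun x y => lowRel s n x y ∧ x ∉ R ∧ y ∉ R) x y :=
    fun x y hx hy h => Relation.ReflTransGen.single ⟨h, hx, hy⟩
  -- every vertex reaches `a`
  have h1 : Relation.ReflTransGen (fun x y => lowRel s n x y ∧ x ∉ R ∧ y ∉ R) u a := by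
    have hca := step c a hc ha (by unfold lowRel; omega)
    have hbc := step b c hb hc (by unfold lowRel; omega)
    by_cases h2 : u.val < s
    · exact (step u b hu hb (by unfold lowRel; omega)).trans (hbc.trans hca)
    · by_cases h3 : u.val < 2 * s
      · exact (step u c hu hc (by unfold lowRel; omega)).trans hca
      · exact step u a hu ha (by unfold lowRel; omega)
  -- `a` reaches every vertex
  have h2 : Relation.ReflTransGen (fun x y => lowRel s n x y ∧ x ∉ R ∧ y ∉ R) a v := by
    have hab := step a b ha hb (by unfold lowRel; omega)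
    have hbc := step b c hb hc (by unfold lowRel; omega)
    by_cases h2 : v.val < s
    · exact hab.trans (hbc.trans (step c v hc hv (by unfold lowRel; omega)))
    · by_cases h3 : v.val < 2 * s
      · exact step a v ha hv (by unfold lowRel; omega)
      · exact hab.trans (step b v hb hv (by unfold lowRel; omega))
  exact h1.trans h2

lemma lowRel_cycle {s n l : ℕ} (hl : 3 ≤ l) (c : ZMod l → Fin n)
    (hc : ∀ j, lowRel s n (c j) (c (j + 1))) : ∃ j, (c j).val < s := by
  by_contra hcon
  push Not at hcon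
  have : NeZero l := ⟨by omega⟩
  obtain ⟨j, _, hj⟩ := Finset.exists_max_image (Finset.univ : Finset (ZMod l))
    (fun j => (c j).val) ⟨0, Finset.mem_univ _⟩
  have h1 := hj (j + 1) (Finset.mem_univ _)
  have h2 := hc j
  have h3 := hcon j
  have h4 := hcon (j + 1)
  unfold lowRel at h2
  omega

lemma lowRel_not {s n : ℕ} (l : Fin (s + 1) → ℕ) (hl : ∀ i, 3 ≤ l i) :
    ¬ HasDisjointCycles (lowRel s n) l := by
  rintro ⟨c, hc, hinj⟩
  have h1 : ∀ i, ∃ j, (c i j).val < s := fun i => lowRel_cycle (hl i) (c i) (hc i)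
  choose j hj using h1
  have h2 : Function.Injective (fun i : Fin (s + 1) => (⟨(c i (j i)).val, hj i⟩ : Fin s)) := by
    intro i i' h
    have h3 : (c i (j i)).val = (c i' (j i')).val := by
      have h5 := congrArg Fin.val h
      exact h5
    have h4 := @hinj ⟨i, j i⟩ ⟨i', j i'⟩ (Fin.ext h3)
    exact congrArg Sigma.fst h4
  have h3 := Fintype.card_le_of_injective _ h2
  simp only [Fintype.card_fin] at h3
  omega

lemma exists_lengths {t n : ℕ} (ht : 1 ≤ t) (hn : 3 * t ≤ n) :
    ∃ l : Fin t → ℕ, (∀ i, 3 ≤ l i) ∧ ∑ i, l i = n ∧ ∃ j, ∀ i, i ≠ j → l i = 3 := by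
  obtain ⟨s, rfl⟩ : ∃ s, t = s + 1 := ⟨t - 1, by omega⟩
  refine ⟨Fin.cons (n - 3 * s) (fun _ => 3), ?_, ?_, 0, ?_⟩
  · intro i
    refine Fin.cases ?_ (fun i => ?_) i
    · simp only [Fin.cons_zero]; omega
    · simp
  · rw [Fin.sum_univ_succ]
    simp only [Fin.cons_zero, Fin.cons_succ, Finset.sum_const, Finset.card_univ,
      Fintype.card_fin, smul_eq_mul]
    omega
  · intro i
    refine Fin.cases ?_ (fun i => ?_) i
    · intro h; exact absurd rfl h
    · intro _; simp

end H990
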