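import Mathlib

/-! Tournaments, strong vertex sets in cut form, cycles of prescribed length (Moon), and averaging. -/

namespace H990

open Finset

/-- `r` is the arc relation of a tournament on the vertex type `V`. -/
def IsTournament {V : Type*} (r : V → V → Prop) : Prop :=
  (∀ x, ¬ r x x) ∧ (∀ x y, x ≠ y → (r x y ∨ r y x)) ∧ (∀ x y, r x y → ¬ r y x)

/-- The reversed relation. -/
def rev {V : Type*} (r : V → V → Prop) : V → V → Prop := fun x y => r y x

lemma rev_rev {V : Type*} (r : V → V → Prop) : rev (rev r) = r := rfl

lemma IsTournament.rev {V : Type*} {r : V → V → Prop} (h : IsTournament r) :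
    IsTournament (H990.rev r) := by
  refine ⟨h.1, fun x y hxy => ?_, fun x y hxy hyx => ?_⟩
  · rcases h.2.1 x y hxy with h1 | h1
    · exact Or.inr h1
    · exact Or.inl h1
  · exact h.2.2 _ _ hxy hyx

lemma IsTournament.ne {V : Type*} {r : V → V → Prop} (h : IsTournament r) {x y : V}
    (hxy : r x y) : x ≠ y := by
  rintro rfl
  exact h.1 _ hxy

lemma IsTournament.of_not {V : Type*} {r : V → V → Prop} (h : IsTournament r) {x y : V}
    (hne : x ≠ y) (hxy : ¬ r x y) : r y x := by
  rcases h.2.1 x y hne with h1 | h1
  · exact absurd h1 hxy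
  · exact h1

set_option linter.unusedSectionVars false

variable {V : Type*} [DecidableEq V]

/-- Strong vertex set, in cut form. -/
def Strong (r : V → V → Prop) (S : Finset V) : Prop :=
  ∀ X : Finset V, X ⊆ S → X.Nonempty → X ≠ S → ∃ x ∈ X, ∃ y ∈ S \ X, r x y

lemma Strong.rev {r : V → V → Prop} {S : Finset V} (h : Strong r S) : Strong (H990.rev r) S := by
  intro X hXS hX hne
  have h1 : (S \ X).Nonempty := by
    rw [Finset.sdiff_nonempty]
    intro h2
    exact hne (Finset.Subset.antisymm hXS h2)
  have h2 : S \ X ≠ S := by
    intro h3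
    obtain ⟨x, hx⟩ := hX
    have : x ∈ S \ X := by rw [h3]; exact hXS hx
    exact (Finset.mem_sdiff.mp this).2 hx
  obtain ⟨x, hx, y, hy, hr⟩ := h (S \ X) Finset.sdiff_subset h1 h2
  have hy' : y ∈ X := by
    rw [Finset.sdiff_sdiff_eq_self hXS] at hy
    exact hy
  exact ⟨y, hy', x, hx, hr⟩

/-- A closed nonempty subset of a strong set is everything. -/
lemma Strong.closed {r : V → V → Prop} {S : Finset V} (h : Strong r S) {X : Finset V}
    (hXS : X ⊆ S) (hX : X.Nonempty) (hcl : ∀ x ∈ X, ∀ y ∈ S, r x y → y ∈ X) : X = S := by
  by_contra hne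
  obtain ⟨x, hx, y, hy, hr⟩ := h X hXS hX hne
  rw [Finset.mem_sdiff] at hy
  exact hy.2 (hcl x hx y hy.1 hr)

/-- To be strong it suffices that closed nonempty subsets are everything. -/
lemma strong_of_closed {r : V → V → Prop} {S : Finset V}
    (h : ∀ X : Finset V, X ⊆ S → X.Nonempty → (∀ x ∈ X, ∀ y ∈ S, r x y → y ∈ X) → X = S) :
    Strong r S := by
  intro X hXS hX hne
  by_contra hcon
  push Not at hcon
  apply hne
  apply h X hXS hX
  intro x hx y hy hr
  by_contra hyX
  exact hcon x hx y (Finset.mem_sdiff.mpr ⟨hy, hyX⟩) hr

/-! ### Cyclic lists -/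

/-- A list `l` is a directed cycle of `r`: nonempty, consecutive arcs and the last entry points to
the first. -/
def IsCyc (r : V → V → Prop) (l : List V) : Prop :=
  l.IsChain r ∧ ∀ (h : l ≠ []), r (l.getLast h) (l.head h)

lemma chain_to_last {P : V → Prop} {l : List V} (hl : l.IsChain (fun a b => P a → P b))
    (h : l ≠ []) {a : V} (ha : a ∈ l) (hP : P a) : P (l.getLast h) := by
  induction l generalizing a with
  | nil => exact absurd rfl h
  | cons b l ih =>
    cases l with
    | nil =>
      simp only [List.mem_singleton] at ha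
      subst ha
      simpa using hP
    | cons c l =>
      rw [List.isChain_cons_cons] at hl
      rw [List.getLast_cons (by simp)]
      rcases List.mem_cons.mp ha with rfl | ha
      · exact ih hl.2 (by simp) List.mem_cons_self (hl.1 hP)
      · exact ih hl.2 (by simp) ha hP

lemma chain_from_head {P : V → Prop} {l : List V} (hl : l.IsChain (fun a b => P a → P b))
    (h : l ≠ []) (hP : P (l.head h)) : ∀ a ∈ l, P a := by
  induction l with
  | nil => exact absurd rfl h
  | cons b l ih =>
    intro a ha
    cases l with
    | nil =>
      simp only [List.mem_singleton] at ha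
      subst ha
      simpa using hP
    | cons c l =>
      rw [List.isChain_cons_cons] at hl
      rcases List.mem_cons.mp ha with rfl | ha
      · simpa using hP
      · exact ih hl.2 (by simp) (by simpa using hl.1 (by simpa using hP)) a ha

lemma cyc_strong {r : V → V → Prop} {l : List V} (hl : IsCyc r l) : Strong r l.toFinset := by
  apply strong_of_closed
  intro X hXS hX hcl
  obtain ⟨x, hx⟩ := hX
  have hne : l ≠ [] := by
    rintro rfl
    simpa using hXS hx
  have hxl : x ∈ l := by simpa using hXS hx
  have hmem : l.IsChain (fun a b => a ∈ X → b ∈ X) := by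
    have h1 := hl.1
    rw [List.isChain_iff_getElem] at h1 ⊢
    intro i hi ha
    exact hcl _ ha _ (by simp) (h1 i hi)
  have h1 := chain_to_last hmem hne hxl hx
  have h2 : l.head hne ∈ X := hcl _ h1 _ (by simp) (hl.2 hne)
  have h3 := chain_from_head hmem hne h2
  apply Finset.Subset.antisymm hXS
  intro a ha
  exact h3 a (by simpa using ha)

/-- Splitting at a failure of a chain condition. -/
lemma split_of_not_chain {P : V → Prop} {l : List V}
    (hl : ¬ l.IsChain (fun a b => P a → P b)) :
    ∃ l1 x y l2, l = l1 ++ x :: y :: l2 ∧ P x ∧ ¬ P y := by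
  induction l with
  | nil => exact absurd List.isChain_nil hl
  | cons b l ih =>
    cases l with
    | nil => exact absurd (List.isChain_singleton b) hl
    | cons c l =>
      by_cases hbc : P b → P c
      · have h1 : ¬ (c :: l).IsChain (fun a b => P a → P b) := by
          intro h2
          exact hl (List.isChain_cons_cons.mpr ⟨hbc, h2⟩)
        obtain ⟨l1, x, y, l2, h3, h4⟩ := ih h1
        exact ⟨b :: l1, x, y, l2, by rw [h3]; rfl, h4⟩
      · push Not at hbc
        exact ⟨[], b, c, l, rfl, hbc⟩

/-- Insert a vertex in a directed cycle. -/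
lemma cyc_insert {r : V → V → Prop} (hT : IsTournament r) {l : List V} (hl : IsCyc r l)
    (hnd : l.Nodup) {v : V} (hv : v ∉ l) {a b : V} (ha : a ∈ l) (hb : b ∈ l) (hav : r a v)
    (hvb : r v b) : ∃ l' : List V, l'.Nodup ∧ IsCyc r l' ∧ l'.length = l.length + 1 ∧
      ∀ x ∈ l', x = v ∨ x ∈ l := by
  have hne : l ≠ [] := by
    rintro rfl
    simp at ha
  have hnot : ∀ x ∈ l, ¬ r x v → r v x := by
    intro x hx h
    exact hT.of_not (fun h' => hv (h' ▸ hx)) h
  by_cases hch : l.IsChain (fun x y => r x v → r y v)
  · -- append at the end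
    have h1 : r (l.getLast hne) v := chain_to_last hch hne ha hav
    have h2 : ¬ r (l.head hne) v := by
      intro h3
      exact hT.2.2 _ _ hvb (chain_from_head hch hne h3 b hb)
    have h3 : r v (l.head hne) := hnot _ (List.head_mem hne) h2
    refine ⟨l ++ [v], ?_, ⟨?_, ?_⟩, by simp, ?_⟩
    · rw [List.nodup_append]
      refine ⟨hnd, by simp, ?_⟩
      intro x hx y hy
      simp only [List.mem_singleton] at hy
      subst hy
      rintro rfl
      exact hv hx
    · rw [List.isChain_append]
      refine ⟨hl.1, List.isChain_singleton v, ?_⟩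
      intro x hx y hy
      rw [List.getLast?_eq_getLast_of_ne_nil hne] at hx
      simp only [Option.mem_def, Option.some.injEq, List.head?_cons] at hx hy
      subst hx
      subst hy
      exact h1
    · intro h
      rw [List.getLast_append_of_ne_nil (by simp) (by simp)]
      have h9 : (l ++ [v]).head h = l.head hne := by
        cases l with
        | nil => exact absurd rfl hne
        | cons c l => simp
      rw [h9]
      simpa using h3
    · intro x hx
      rw [List.mem_append] at hx
      rcases hx with hx | hx
      · exact Or.inr hx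
      · exact Or.inl (by simpa using hx)
  · obtain ⟨l1, x, y, l2, h3, h4, h5⟩ := split_of_not_chain hch
    subst h3
    have hyv : r v y := hnot y (by simp) h5
    refine ⟨l1 ++ x :: v :: y :: l2, ?_, ⟨?_, ?_⟩, ?_, ?_⟩
    · have h6 : (l1 ++ x :: v :: y :: l2).Perm (v :: (l1 ++ x :: y :: l2)) := by
        have h7 : l1 ++ x :: v :: y :: l2 = (l1 ++ [x]) ++ v :: (y :: l2) := by simp
        have h8 : l1 ++ x :: y :: l2 = (l1 ++ [x]) ++ (y :: l2) := by simp
        rw [h7, h8]
        exact List.perm_middle
      rw [h6.nodup_iff, List.nodup_cons]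
      exact ⟨hv, hnd⟩
    · have h6 := hl.1
      rw [List.isChain_append] at h6 ⊢
      obtain ⟨h7, h8, h9⟩ := h6
      rw [List.isChain_cons_cons] at h8
      refine ⟨h7, ?_, ?_⟩
      · rw [List.isChain_cons_cons, List.isChain_cons_cons]
        exact ⟨h4, hyv, h8.2⟩
      · intro a ha b hb
        exact h9 a ha b (by simpa using hb)
    · intro h
      have h6 := hl.2 (by simp)
      have h7 : (l1 ++ x :: v :: y :: l2).getLast h = (l1 ++ x :: y :: l2).getLast (by simp) := by
        rw [List.getLast_append_of_ne_nil (by simp) (by simp),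
          List.getLast_append_of_ne_nil (by simp) (by simp)]
        simp
      have h8 : (l1 ++ x :: v :: y :: l2).head h = (l1 ++ x :: y :: l2).head (by simp) := by
        cases l1 with
        | nil => simp
        | cons c l1 => simp
      rw [h7, h8]
      exact h6
    · simp only [List.length_append, List.length_cons]
      omega
    · intro z hz
      simp only [List.mem_append, List.mem_cons] at hz ⊢
      tauto

/-- Moon: a strong set of a tournament contains directed cycles of every length from three on. -/
lemma exists_cyc {r : V → V → Prop} (hT : IsTournament r) {S : Finset V} (hS : Strong r S)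
    {s : ℕ} (h3 : 3 ≤ s) (hs : s ≤ S.card) :
    ∃ l : List V, l.Nodup ∧ IsCyc r l ∧ l.length = s ∧ ∀ x ∈ l, x ∈ S := by
  classical
  induction s, h3 using Nat.le_induction with
  | base =>
    -- take a vertex `v`, its in- and out-neighbours in `S`
    have hne : S.Nonempty := by
      rw [← Finset.card_pos]; omega
    obtain ⟨v, hv⟩ := hne
    set X : Finset V := S.filter (fun y => r v y) with hX
    obtain ⟨x0, hx0, y0, hy0, hr0⟩ := hS {v} (by simpa using hv) (by simp) (by
      intro h; rw [← h] at hs; simp at hs)
    have hXne : X.Nonempty := by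
      rw [Finset.mem_singleton] at hx0
      subst hx0
      exact ⟨y0, by rw [hX, Finset.mem_filter]; exact ⟨(Finset.mem_sdiff.mp hy0).1, hr0⟩⟩
    have hXS : X ⊆ S := Finset.filter_subset _ _
    have hvX : v ∉ X := by
      rw [hX, Finset.mem_filter]
      exact fun h => hT.1 _ h.2
    -- an arc from `X` to outside which does not end in `v`, or `X ∪ {v} = S`
    by_cases hcl : ∃ x ∈ X, ∃ y ∈ S, y ∉ X ∧ y ≠ v ∧ r x y
    · obtain ⟨x, hx, y, hy, hyX, hyv, hxy⟩ := hcl
      have hvx : r v x := (Finset.mem_filter.mp hx).2
      have hyv' : r y v := by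
        apply hT.of_not (Ne.symm hyv)
        intro h
        exact hyX (Finset.mem_filter.mpr ⟨hy, h⟩)
      refine ⟨[v, x, y], ?_, ⟨?_, ?_⟩, rfl, ?_⟩
      · simp only [List.nodup_cons, List.mem_cons, List.not_mem_nil, or_false, not_or,
          List.nodup_nil, and_true, not_false_iff]
        exact ⟨⟨hT.ne hvx, Ne.symm hyv⟩, hT.ne hxy⟩
      · simp [hvx, hxy]
      · intro h
        simpa using hyv'
      · intro z hz
        simp only [List.mem_cons, List.not_mem_nil, or_false] at hz
        rcases hz with rfl | rfl | rfl
        · exact hv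
        · exact hXS hx
        · exact hy
    · push Not at hcl
      -- then every arc leaving `X` inside `S` ends in `v`; the rest `Y` is empty by strength
      have hXv : insert v X = S := by
        apply hS.closed (Finset.insert_subset hv hXS) ⟨v, by simp⟩
        intro x hx y hy hr
        rcases Finset.mem_insert.mp hx with rfl | hx
        · exact Finset.mem_insert_of_mem (Finset.mem_filter.mpr ⟨hy, hr⟩)
        · by_contra hyn
          rw [Finset.mem_insert, not_or] at hyn
          exact hcl x hx y hy hyn.2 hyn.1 hr
      obtain ⟨x, hx, y, hy, hr⟩ := hS X hXS hXne (by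
        intro h; rw [h] at hvX; exact hvX hv)
      rw [← hXv, Finset.mem_sdiff, Finset.mem_insert] at hy
      have hyv : y = v := by
        rcases hy.1 with h | h
        · exact h
        · exact absurd h hy.2
      subst hyv
      exact absurd hr (hT.2.2 _ _ (Finset.mem_filter.mp hx).2)
  | succ s h3 ih =>
    obtain ⟨l, hnd, hl, hlen, hlS⟩ := ih (by omega)
    have hne : l ≠ [] := by
      rintro rfl
      simp at hlen
      omega
    by_cases hmix : ∃ v ∈ S, v ∉ l ∧ (∃ a ∈ l, r a v) ∧ ∃ b ∈ l, r v b
    · obtain ⟨v, hvS, hvl, ⟨a, ha, hav⟩, b, hb, hvb⟩ := hmix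
      obtain ⟨l', h1, h2, h4, h5⟩ := cyc_insert hT hl hnd hvl ha hb hav hvb
      refine ⟨l', h1, h2, by omega, ?_⟩
      intro x hx
      rcases h5 x hx with rfl | h6
      · exact hvS
      · exact hlS x h6
    · push Not at hmix
      -- every outside vertex is pure
      set A : Finset V := S.filter (fun v => v ∉ l ∧ ∃ a ∈ l, r a v) with hA
      have hlcard : l.toFinset.card = s := by
        rw [List.toFinset_card_of_nodup hnd, hlen]
      have hlne : l.toFinset.Nonempty := by
        rw [← Finset.card_pos]; omega
      have hlsub : l.toFinset ⊆ S := by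
        intro x hx
        exact hlS x (by simpa using hx)
      have hAne : A.Nonempty := by
        obtain ⟨x, hx, y, hy, hr⟩ := hS l.toFinset hlsub hlne (by
          intro h; rw [h] at hlcard; omega)
        rw [Finset.mem_sdiff, List.mem_toFinset] at hy
        exact ⟨y, Finset.mem_filter.mpr ⟨hy.1, hy.2, x, by simpa using hx, hr⟩⟩
      have hAS : A ⊆ S := Finset.filter_subset _ _
      obtain ⟨x, hx, y, hy, hr⟩ := hS A hAS hAne (by
        intro h
        obtain ⟨z, hz⟩ := hlne
        have hz' : z ∈ A := by rw [h]; exact hlsub hz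
        exact (Finset.mem_filter.mp hz').2.1 (by simpa using hz))
      obtain ⟨hxS, hxl, a, ha, hax⟩ := Finset.mem_filter.mp hx
      rw [Finset.mem_sdiff] at hy
      have hyl : y ∉ l := by
        intro hyl
        exact hmix x hxS hxl ⟨a, ha, hax⟩ y hyl hr
      have hyb : ∀ b ∈ l, r y b := by
        intro b hb
        have hne1 : b ≠ y := fun h => hyl (h ▸ hb)
        apply hT.of_not hne1
        intro hby
        exact hy.2 (Finset.mem_filter.mpr ⟨hy.1, hyl, b, hb, hby⟩)
      have hxa : ∀ b ∈ l, r b x := by
        intro b hb
        have hne1 : x ≠ b := fun h => hxl (h ▸ hb)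
        apply hT.of_not hne1
        exact hmix x hxS hxl ⟨a, ha, hax⟩ b hb
      -- replace the last vertex of `l` by `x, y`
      obtain ⟨l', z, hlz⟩ : ∃ l' z, l = l' ++ [z] :=
        ⟨l.dropLast, l.getLast hne, (List.dropLast_append_getLast hne).symm⟩
      subst hlz
      have hlen' : l'.length = s - 1 := by
        simp at hlen; omega
      have hne' : l' ≠ [] := by
        rintro rfl
        simp at hlen'
        omega
      have hmem' : ∀ w ∈ l', w ∈ l' ++ [z] := fun w hw => List.mem_append_left _ hw
      refine ⟨l' ++ [x, y], ?_, ⟨?_, ?_⟩, ?_, ?_⟩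
      · rw [List.nodup_append]
        refine ⟨(List.nodup_append.mp hnd).1, ?_, ?_⟩
        · simp [hT.ne hr]
        · intro w hw u hu
          simp only [List.mem_cons, List.not_mem_nil, or_false] at hu
          rcases hu with rfl | rfl
          · exact fun h => hxl (h ▸ hmem' w hw)
          · exact fun h => hyl (h ▸ hmem' w hw)
      · rw [List.isChain_append]
        refine ⟨(List.isChain_append.mp hl.1).1, by simp [hr], ?_⟩
        intro w hw u hu
        have hw' : w ∈ l' := List.mem_of_getLast? hw
        simp only [List.head?_cons, Option.mem_def, Option.some.injEq] at hu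
        subst hu
        exact hxa w (hmem' w hw')
      · intro h
        have h9 : (l' ++ [x, y]).getLast h = y := by
          rw [List.getLast_append_of_ne_nil (by simp) (by simp)]
          simp
        have h10 : (l' ++ [x, y]).head h ∈ l' := by
          cases l' with
          | nil => exact absurd rfl hne'
          | cons c l' => simp
        rw [h9]
        exact hyb _ (hmem' _ h10)
      · simp only [List.length_append, List.length_cons, List.length_nil]
        omega
      · intro w hw
        simp only [List.mem_append, List.mem_cons, List.not_mem_nil, or_false] at hw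
        rcases hw with hw | rfl | rfl
        · exact hlS w (hmem' w hw)
        · exact hxS
        · exact hy.1

/-- A strong set contains strong subsets of every size from three on. -/
lemma exists_strong_subset {r : V → V → Prop} (hT : IsTournament r) {S : Finset V}
    (hS : Strong r S) {s : ℕ} (h3 : 3 ≤ s) (hs : s ≤ S.card) :
    ∃ X : Finset V, X ⊆ S ∧ Strong r X ∧ X.card = s := by
  obtain ⟨l, hnd, hl, hlen, hlS⟩ := exists_cyc hT hS h3 hs
  refine ⟨l.toFinset, ?_, cyc_strong hl, ?_⟩
  · intro x hx
    exact hlS x (by simpa using hx)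
  · rw [List.toFinset_card_of_nodup hnd, hlen]

/-- From a cyclic list to a cyclic map. -/
lemma cyc_to_fun {r : V → V → Prop} {l : List V} (hnd : l.Nodup) (hl : IsCyc r l) {s : ℕ}
    (hs : 3 ≤ s) (hlen : l.length = s) :
    ∃ c : ZMod s → V, Function.Injective c ∧ (∀ j, r (c j) (c (j + 1))) ∧ ∀ j, c j ∈ l := by
  have : NeZero s := ⟨by omega⟩
  have hlt : ∀ j : ZMod s, j.val < l.length := fun j => by rw [hlen]; exact ZMod.val_lt j
  refine ⟨fun j => l[j.val]'(hlt j), ?_, ?_, fun j => List.getElem_mem _⟩
  · intro i j hij
    have h1 := (List.Nodup.getElem_inj_iff hnd).mp hij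
    exact ZMod.val_injective s h1
  · intro j
    by_cases hj : j.val + 1 < s
    · have h1 : (j + 1).val = j.val + 1 := by
        rw [ZMod.val_add, ZMod.val_one'' (by omega)]
        exact Nat.mod_eq_of_lt hj
      have h2 := (List.isChain_iff_getElem.mp hl.1) j.val (by omega)
      simp only [h1]
      exact h2
    · have h0 : j.val = s - 1 := by
        have := ZMod.val_lt j
        omega
      have h1 : (j + 1).val = 0 := by
        rw [ZMod.val_add, ZMod.val_one'' (by omega), h0]
        have : s - 1 + 1 = s := by omega
        rw [this, Nat.mod_self]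
      have hne : l ≠ [] := by
        rintro rfl
        simp at hlen
        omega
      have h2 := hl.2 hne
      rw [List.getLast_eq_getElem, List.head_eq_getElem] at h2
      simp only [h1, h0]
      have h3 : l.length - 1 = s - 1 := by rw [hlen]
      simpa [h3] using h2

end H990
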