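import Pool.Agent.H990_Song.Link

/-! The exchange lemma: a configuration minimising the trapped sets traps nothing. -/

namespace H990

open Finset

set_option linter.unusedSectionVars false

variable {V : Type*} [DecidableEq V] [Fintype V]

open Classical in
/-- The vertices lying in some closed set of `univ \ W` which misses `d0`. -/
noncomputable def Zcl (r : V → V → Prop) (W : Finset V) (d0 : V) : Finset V :=
  univ.filter (fun v => ∃ Z : Finset V, v ∈ Z ∧ d0 ∉ Z ∧ Disjoint Z W ∧
    ∀ z ∈ Z, ∀ y, r z y → y ∈ Z ∪ W)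

lemma mem_Zcl {r : V → V → Prop} {W : Finset V} {d0 v : V} :
    v ∈ Zcl r W d0 ↔ ∃ Z : Finset V, v ∈ Z ∧ d0 ∉ Z ∧ Disjoint Z W ∧
      ∀ z ∈ Z, ∀ y, r z y → y ∈ Z ∪ W := by
  simp [Zcl]

lemma subset_Zcl {r : V → V → Prop} {W Z : Finset V} {d0 : V} (h1 : d0 ∉ Z)
    (h2 : Disjoint Z W) (h3 : ∀ z ∈ Z, ∀ y, r z y → y ∈ Z ∪ W) : Z ⊆ Zcl r W d0 := by
  intro z hz
  rw [mem_Zcl]
  exact ⟨Z, hz, h1, h2, h3⟩

lemma Zcl_not_mem {r : V → V → Prop} {W : Finset V} {d0 : V} : d0 ∉ Zcl r W d0 := by
  rw [mem_Zcl]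
  rintro ⟨Z, h, h', _⟩
  exact h' h

lemma Zcl_disjoint {r : V → V → Prop} {W : Finset V} {d0 : V} : Disjoint (Zcl r W d0) W := by
  rw [Finset.disjoint_left]
  intro z hz
  rw [mem_Zcl] at hz
  obtain ⟨Z, h, _, h2, _⟩ := hz
  exact Finset.disjoint_left.mp h2 h

lemma Zcl_closed {r : V → V → Prop} {W : Finset V} {d0 : V} :
    ∀ z ∈ Zcl r W d0, ∀ y, r z y → y ∈ Zcl r W d0 ∪ W := by
  intro z hz y hr
  rw [mem_Zcl] at hz
  obtain ⟨Z, h, h1, h2, h3⟩ := hz
  have := h3 z h y hr
  rw [Finset.mem_union] at this ⊢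
  rcases this with h4 | h4
  · exact Or.inl (subset_Zcl h1 h2 h3 h4)
  · exact Or.inr h4

/-- If nothing is trapped on either side then the rest is strong. -/
lemma strong_of_Zcl {r : V → V → Prop} {W : Finset V} {d0 : V}
    (h1 : Zcl r W d0 = ∅) (h2 : Zcl (rev r) W d0 = ∅) : Strong r (univ \ W) := by
  apply strong_of_closed
  intro X hX hne hcl
  have hXW : Disjoint X W := by
    rw [Finset.disjoint_left]
    intro x hx
    exact (Finset.mem_sdiff.mp (hX hx)).2
  have hd : d0 ∈ X := by
    by_contra hd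
    have h3 : X ⊆ Zcl r W d0 := by
      apply subset_Zcl hd hXW
      intro x hx y hr
      rw [Finset.mem_union]
      by_cases hy : y ∈ W
      · exact Or.inr hy
      · exact Or.inl (hcl x hx y (Finset.mem_sdiff.mpr ⟨Finset.mem_univ _, hy⟩) hr)
    rw [h1] at h3
    obtain ⟨x, hx⟩ := hne
    simpa using h3 hx
  by_contra hne2
  have h3 : (univ \ W) \ X ⊆ Zcl (rev r) W d0 := by
    apply subset_Zcl
    · intro h; exact (Finset.mem_sdiff.mp h).2 hd
    · rw [Finset.disjoint_left]
      intro x hx
      exact (Finset.mem_sdiff.mp (Finset.mem_sdiff.mp hx).1).2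
    · intro x hx y hr
      rw [Finset.mem_sdiff] at hx
      rw [Finset.mem_union]
      by_cases hy : y ∈ W
      · exact Or.inr hy
      · left
        rw [Finset.mem_sdiff]
        refine ⟨Finset.mem_sdiff.mpr ⟨Finset.mem_univ _, hy⟩, ?_⟩
        intro hyX
        exact hx.2 (hcl y hyX x hx.1 hr)
  rw [h2] at h3
  apply hne2
  apply Finset.Subset.antisymm hX
  rw [← Finset.sdiff_eq_empty_iff_subset]
  exact Finset.subset_empty.mp h3

variable {ι : Type*} [Fintype ι] [DecidableEq ι]

/-- The removed set of a configuration. -/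
def Wc (DD : Finset V) (o x : ι → V) : Finset V := univ.image o ∪ univ.image x ∪ DD

lemma mem_Wc {DD : Finset V} {o x : ι → V} {v : V} :
    v ∈ Wc DD o x ↔ (∃ i, o i = v) ∨ (∃ i, x i = v) ∨ v ∈ DD := by
  simp [Wc]

lemma Wc_swap {DD : Finset V} {o x : ι → V} : Wc DD x o = Wc DD o x := by
  ext v
  rw [mem_Wc, mem_Wc]
  tauto

/-- Admissible configurations. -/
structure IsCfg (r : V → V → Prop) (Op Xp : Finset V) (o x : ι → V) : Prop where
  oinj : Function.Injective o
  xinj : Function.Injective x
  omem : ∀ i, o i ∈ Op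
  xmem : ∀ i, x i ∈ Xp
  arc : ∀ i, r (o i) (x i)

lemma IsCfg.rev {r : V → V → Prop} {Op Xp : Finset V} {o x : ι → V} (h : IsCfg r Op Xp o x) :
    IsCfg (H990.rev r) Xp Op x o :=
  ⟨h.xinj, h.oinj, h.xmem, h.omem, h.arc⟩

/-- The exchange lemma. -/
lemma exchange {r : V → V → Prop} (hT : IsTournament r) {t : ℕ} (hk : Kc r t)
    (hι : Fintype.card ι < t) {Op Xp DD : Finset V} {d0 : V} (hd0 : d0 ∉ DD)
    (hOX : Disjoint Op Xp) (hOd : ∀ o ∈ Op, ∀ d ∈ insert d0 DD, r d o)
    (hXd : ∀ x ∈ Xp, ∀ d ∈ insert d0 DD, r x d)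
    {o x : ι → V} (hc : IsCfg r Op Xp o x)
    (hsub : Zcl r (Wc DD o x) d0 ⊆ Op)
    (hmin : ∀ o' x' : ι → V, IsCfg r Op Xp o' x' →
      (Zcl r (Wc DD o x) d0).card + (Zcl (rev r) (Wc DD o x) d0).card ≤
      (Zcl r (Wc DD o' x') d0).card + (Zcl (rev r) (Wc DD o' x') d0).card) :
    Zcl r (Wc DD o x) d0 = ∅ := by
  classical
  set Z := Zcl r (Wc DD o x) d0 with hZ
  set W := Wc DD o x with hW
  set S0 : Finset V := univ.image o with hS0
  have hd0O : d0 ∉ Op := fun h => hT.1 _ (hOd d0 h d0 (Finset.mem_insert_self _ _))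
  have hd0X : d0 ∉ Xp := fun h => hT.1 _ (hXd d0 h d0 (Finset.mem_insert_self _ _))
  have hODD : ∀ v ∈ Op, v ∉ DD := fun v hv h => hT.1 _ (hOd v hv v (Finset.mem_insert_of_mem h))
  have hXDD : ∀ v ∈ Xp, v ∉ DD := fun v hv h => hT.1 _ (hXd v hv v (Finset.mem_insert_of_mem h))
  have hZW : Disjoint Z W := Zcl_disjoint
  have hZcl : ∀ z ∈ Z, ∀ y, r z y → y ∈ Z ∪ W := Zcl_closed
  have hdZ : d0 ∉ Z := Zcl_not_mem
  have hS0O : S0 ⊆ Op := by
    intro v hv
    obtain ⟨i, _, rfl⟩ := Finset.mem_image.mp hv
    exact hc.omem i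
  have hS0W : S0 ⊆ W := by
    intro v hv
    obtain ⟨i, _, rfl⟩ := Finset.mem_image.mp hv
    exact mem_Wc.mpr (Or.inl ⟨i, rfl⟩)
  have hS0Z : Disjoint Z S0 := Finset.disjoint_of_subset_right hS0W hZW
  have hS0card : S0.card = Fintype.card ι := by
    rw [hS0, Finset.card_image_of_injective _ hc.oinj, Finset.card_univ]
  -- bad vertices of `S0`: those with an arc to the outside of `W ∪ Z`
  set G : Finset V := S0.filter (fun v => ∃ u, u ∉ W ∧ u ∉ Z ∧ r v u) with hG
  -- no injective system avoiding some `g ∈ G`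
  have key : ∀ g ∈ G, ¬ ∃ o' : ι → V, Function.Injective o' ∧
      ∀ i, o' i ∈ (Z ∪ S0) ∧ o' i ≠ g ∧ r (o' i) (x i) := by
    rintro g hg ⟨o', hinj, ho'⟩
    have hSM : ∀ i, o' i ∈ Op := by
      intro i
      rcases Finset.mem_union.mp (ho' i).1 with h | h
      · exact hsub h
      · exact hS0O h
    have hcfg : IsCfg r Op Xp o' x := ⟨hinj, hc.xinj, hSM, hc.xmem, fun i => (ho' i).2.2⟩
    have hle := hmin o' x hcfg
    set W' := Wc DD o' x with hW'
    set SM : Finset V := univ.image o' with hSMdef
    have hSMcard : SM.card = Fintype.card ι := by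
      rw [hSMdef, Finset.card_image_of_injective _ hinj, Finset.card_univ]
    have hSMsub : SM ⊆ Z ∪ S0 := by
      intro v hv
      obtain ⟨i, _, rfl⟩ := Finset.mem_image.mp hv
      exact (ho' i).1
    have hSMW' : SM ⊆ W' := by
      intro v hv
      obtain ⟨i, _, rfl⟩ := Finset.mem_image.mp hv
      exact mem_Wc.mpr (Or.inl ⟨i, rfl⟩)
    have hgSM : g ∉ SM := by
      intro h
      obtain ⟨i, _, hi⟩ := Finset.mem_image.mp h
      exact (ho' i).2.1 hi
    have hgS0 : g ∈ S0 := (Finset.mem_filter.mp hg).1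
    have hW'W : ∀ v ∈ W', v ∈ W ∨ v ∈ Z := by
      intro v hv
      rcases mem_Wc.mp hv with ⟨i, rfl⟩ | ⟨i, rfl⟩ | h
      · rcases Finset.mem_union.mp (ho' i).1 with h | h
        · exact Or.inr h
        · exact Or.inl (hS0W h)
      · exact Or.inl (mem_Wc.mpr (Or.inr (Or.inl ⟨i, rfl⟩)))
      · exact Or.inl (mem_Wc.mpr (Or.inr (Or.inr h)))
    have hWW' : ∀ v ∈ W, v ∈ S0 ∨ v ∈ W' := by
      intro v hv
      rcases mem_Wc.mp hv with ⟨i, rfl⟩ | ⟨i, rfl⟩ | h
      · exact Or.inl (Finset.mem_image_of_mem _ (Finset.mem_univ _))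
      · exact Or.inr (mem_Wc.mpr (Or.inr (Or.inl ⟨i, rfl⟩)))
      · exact Or.inr (mem_Wc.mpr (Or.inr (Or.inr h)))
    set Z' := Zcl r W' d0 with hZ'
    have hZ'W' : Disjoint Z' W' := Zcl_disjoint
    have hZ'cl : ∀ z ∈ Z', ∀ y, r z y → y ∈ Z' ∪ W' := Zcl_closed
    have hdZ' : d0 ∉ Z' := Zcl_not_mem
    -- `Z'` is inside `Z ∪ S0`
    have h1 : Z' ⊆ Z ∪ S0 := by
      have h2 : (Z' \ S0) ∪ Z ⊆ Zcl r W d0 := by
        apply subset_Zcl
        · rw [Finset.mem_union, not_or, Finset.mem_sdiff, not_and_or]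
          exact ⟨Or.inl hdZ', hdZ⟩
        · rw [Finset.disjoint_union_left]
          refine ⟨?_, hZW⟩
          rw [Finset.disjoint_left]
          intro v hv hvW
          rw [Finset.mem_sdiff] at hv
          rcases hWW' v hvW with h | h
          · exact hv.2 h
          · exact Finset.disjoint_left.mp hZ'W' hv.1 h
        · intro z hz y hr
          rcases Finset.mem_union.mp hz with hz | hz
          · rw [Finset.mem_sdiff] at hz
            have h3 := hZ'cl z hz.1 y hr
            simp only [Finset.mem_union, Finset.mem_sdiff] at h3 ⊢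
            rcases h3 with h3 | h3
            · by_cases h4 : y ∈ S0
              · exact Or.inr (hS0W h4)
              · exact Or.inl (Or.inl ⟨h3, h4⟩)
            · rcases hW'W y h3 with h4 | h4
              · exact Or.inr h4
              · exact Or.inl (Or.inr h4)
          · have h3 := hZcl z hz y hr
            simp only [Finset.mem_union] at h3 ⊢
            rcases h3 with h3 | h3
            · exact Or.inl (Or.inr h3)
            · exact Or.inr h3
      intro v hv
      by_cases h4 : v ∈ S0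
      · exact Finset.mem_union_right _ h4
      · apply Finset.mem_union_left
        rw [hZ]
        exact h2 (Finset.mem_union_left _ (Finset.mem_sdiff.mpr ⟨hv, h4⟩))
    have hgZ' : g ∉ Z' := by
      intro h
      obtain ⟨u, hu1, hu2, hu3⟩ := (Finset.mem_filter.mp hg).2
      have h2 := hZ'cl g h u hu3
      rcases Finset.mem_union.mp h2 with h3 | h3
      · rcases Finset.mem_union.mp (h1 h3) with h4 | h4
        · exact hu2 h4
        · exact hu1 (hS0W h4)
      · rcases hW'W u h3 with h4 | h4
        · exact hu1 h4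
        · exact hu2 h4
    have hcard1 : Z'.card + 1 ≤ Z.card := by
      have h2 : Z' ∪ insert g SM ⊆ Z ∪ S0 := by
        apply Finset.union_subset h1
        apply Finset.insert_subset (Finset.mem_union_right _ hgS0) hSMsub
      have h3 : Disjoint Z' (insert g SM) := by
        rw [Finset.disjoint_insert_right]
        exact ⟨hgZ', Finset.disjoint_of_subset_right hSMW' hZ'W'⟩
      have h4 := Finset.card_le_card h2
      rw [Finset.card_union_of_disjoint h3, Finset.card_union_of_disjoint hS0Z,
        Finset.card_insert_of_notMem hgSM] at h4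
      omega
    -- the other side does not grow
    have h5 : Zcl (rev r) W' d0 ⊆ Zcl (rev r) W d0 := by
      set Y := Zcl (rev r) W' d0 with hY
      have hYW' : Disjoint Y W' := Zcl_disjoint
      have hYcl : ∀ z ∈ Y, ∀ y, rev r z y → y ∈ Y ∪ W' := Zcl_closed
      have hdY : d0 ∉ Y := Zcl_not_mem
      have hd0W' : d0 ∉ W' := by
        intro h
        rcases mem_Wc.mp h with ⟨i, hi⟩ | ⟨i, hi⟩ | h
        · exact hd0O (hi ▸ hSM i)
        · exact hd0X (hi ▸ hc.xmem i)
        · exact hd0 h
      have hYO : ∀ y ∈ Y, y ∉ Op := by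
        intro y hy hyO
        have h6 := hYcl y hy d0 (hOd y hyO d0 (Finset.mem_insert_self _ _))
        rcases Finset.mem_union.mp h6 with h7 | h7
        · exact hdY h7
        · exact hd0W' h7
      apply subset_Zcl hdY
      · rw [Finset.disjoint_left]
        intro y hy hyW
        rcases hWW' y hyW with h6 | h6
        · exact hYO y hy (hS0O h6)
        · exact Finset.disjoint_left.mp hYW' hy h6
      · intro z hz y hr
        rcases Finset.mem_union.mp (hYcl z hz y hr) with h6 | h6
        · exact Finset.mem_union_left _ h6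
        · rcases hW'W y h6 with h7 | h7
          · exact Finset.mem_union_right _ h7
          · exfalso
            -- `y ∈ Z` has an arc to `z`
            have h8 := hZcl y h7 z hr
            rcases Finset.mem_union.mp h8 with h9 | h9
            · exact hYO z hz (hsub h9)
            · rcases hWW' z h9 with h10 | h10
              · exact hYO z hz (hS0O h10)
              · exact Finset.disjoint_left.mp hYW' hz h10
    have h6 := Finset.card_le_card h5
    omega
  -- Hall violators
  have hall : ∀ g ∈ G, ∃ I : Finset ι, g ∈ I.image o ∧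
      ∀ i ∈ I, ∀ v ∈ Z ∪ S0, r v (x i) → v ∈ I.image o := by
    intro g hg
    let N : ι → Finset V := fun i => ((Z ∪ S0).filter (fun v => r v (x i))).erase g
    have h1 : ¬ ∀ s : Finset ι, s.card ≤ (s.biUnion N).card := by
      intro h
      obtain ⟨f, hf, hf'⟩ := (Finset.all_card_le_biUnion_card_iff_exists_injective N).mp h
      apply key g hg
      refine ⟨f, hf, fun i => ?_⟩
      have h2 := hf' i
      simp only [N, Finset.mem_erase, Finset.mem_filter] at h2
      exact ⟨h2.2.1, h2.1, h2.2.2⟩
    push Not at h1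
    obtain ⟨I, hI⟩ := h1
    refine ⟨I, ?_, ?_⟩
    · by_contra hgI
      have h2 : I.image o ⊆ I.biUnion N := by
        intro v hv
        obtain ⟨i, hi, rfl⟩ := Finset.mem_image.mp hv
        rw [Finset.mem_biUnion]
        refine ⟨i, hi, ?_⟩
        simp only [N, Finset.mem_erase, Finset.mem_filter]
        refine ⟨?_, Finset.mem_union_right _ (Finset.mem_image_of_mem _ (Finset.mem_univ _)),
          hc.arc i⟩
        rintro rfl
        exact hgI hv
      have h3 := Finset.card_le_card h2
      rw [Finset.card_image_of_injective _ hc.oinj] at h3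
      omega
    · intro i hi v hv hr
      by_contra hvI
      -- `I.image o ∪ {v}` minus `g` is inside
      have h2 : (insert v (I.image o)).erase g ⊆ I.biUnion N := by
        intro w hw
        rw [Finset.mem_erase, Finset.mem_insert] at hw
        rw [Finset.mem_biUnion]
        rcases hw.2 with rfl | h
        · exact ⟨i, hi, by simp only [N, Finset.mem_erase, Finset.mem_filter]; exact ⟨hw.1, hv, hr⟩⟩
        · obtain ⟨k, hk', rfl⟩ := Finset.mem_image.mp h
          refine ⟨k, hk', ?_⟩
          simp only [N, Finset.mem_erase, Finset.mem_filter]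
          exact ⟨hw.1, Finset.mem_union_right _ (Finset.mem_image_of_mem _ (Finset.mem_univ _)),
            hc.arc k⟩
      have h3 := Finset.card_le_card h2
      have h4 : (insert v (I.image o)).card - 1 ≤ ((insert v (I.image o)).erase g).card :=
        Finset.pred_card_le_card_erase
      rw [Finset.card_insert_of_notMem hvI, Finset.card_image_of_injective _ hc.oinj] at h4
      omega
  choose! Ig hIg1 hIg2 using hall
  set Is : Finset ι := G.biUnion Ig with hIs
  have htight : ∀ i ∈ Is, ∀ v ∈ Z ∪ S0, r v (x i) → v ∈ Is.image o := by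
    intro i hi v hv hr
    obtain ⟨g, hg, hi'⟩ := Finset.mem_biUnion.mp hi
    have h1 := hIg2 g hg i hi' v hv hr
    obtain ⟨k, hk', rfl⟩ := Finset.mem_image.mp h1
    exact Finset.mem_image_of_mem _ (Finset.mem_biUnion.mpr ⟨g, hg, hk'⟩)
  have hGsub : ∀ g ∈ G, g ∈ Is.image o := by
    intro g hg
    obtain ⟨k, hk', hk2⟩ := Finset.mem_image.mp (hIg1 g hg)
    rw [← hk2]
    exact Finset.mem_image_of_mem _ (Finset.mem_biUnion.mpr ⟨g, hg, hk'⟩)
  by_contra hne
  have hZne : Z.Nonempty := Finset.nonempty_iff_ne_empty.mpr hne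
  -- the final closed set
  set X : Finset V := Z ∪ (univ \ Is).image o with hX
  set S : Finset V := Is.image o ∪ (univ \ Is).image x with hS
  have hScard : S.card < t := by
    calc S.card ≤ (Is.image o).card + ((univ \ Is).image x).card := Finset.card_union_le _ _
      _ ≤ Is.card + (univ \ Is).card := Nat.add_le_add Finset.card_image_le Finset.card_image_le
      _ = Fintype.card ι := by
        rw [Finset.card_sdiff_of_subset (Finset.subset_univ _), Finset.card_univ]
        have := Finset.card_le_univ Is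
        omega
      _ < t := hι
  have hXsub : X ⊆ Z ∪ S0 := by
    apply Finset.union_subset_union_right
    intro v hv
    obtain ⟨i, _, rfl⟩ := Finset.mem_image.mp hv
    exact Finset.mem_image_of_mem _ (Finset.mem_univ _)
  have hXnot : ∀ v ∈ X, v ∉ Is.image o := by
    intro v hv hv'
    obtain ⟨k, hk1, rfl⟩ := Finset.mem_image.mp hv'
    rcases Finset.mem_union.mp hv with h | h
    · exact Finset.disjoint_left.mp hS0Z h (Finset.mem_image_of_mem _ (Finset.mem_univ _))
    · obtain ⟨j, hj, hj'⟩ := Finset.mem_image.mp h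
      have := hc.oinj hj'
      subst this
      exact (Finset.mem_sdiff.mp hj).2 hk1
  have hXOp : X ⊆ Op := by
    intro v hv
    rcases Finset.mem_union.mp (hXsub hv) with h | h
    · exact hsub h
    · exact hS0O h
  have hdisj : Disjoint X S := by
    rw [Finset.disjoint_left]
    intro v hv hv'
    rcases Finset.mem_union.mp hv' with h | h
    · exact hXnot v hv h
    · obtain ⟨j, _, rfl⟩ := Finset.mem_image.mp h
      exact Finset.disjoint_left.mp hOX (hXOp hv) (hc.xmem j)
  have hclX : ∀ v ∈ X, ∀ y, r v y → y ∈ X ∪ S := by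
    intro v hv y hr
    -- first `y ∈ Z ∪ W`
    have h1 : y ∈ Z ∪ W := by
      rcases Finset.mem_union.mp hv with h | h
      · exact hZcl v h y hr
      · by_contra hy
        rw [Finset.mem_union, not_or] at hy
        apply hXnot v hv
        apply hGsub
        rw [hG, Finset.mem_filter]
        refine ⟨?_, y, hy.2, hy.1, hr⟩
        obtain ⟨i, _, rfl⟩ := Finset.mem_image.mp h
        exact Finset.mem_image_of_mem _ (Finset.mem_univ _)
    rcases Finset.mem_union.mp h1 with h2 | h2
    · exact Finset.mem_union_left _ (Finset.mem_union_left _ h2)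
    · rcases mem_Wc.mp h2 with ⟨i, rfl⟩ | ⟨i, rfl⟩ | h3
      · by_cases hi : i ∈ Is
        · exact Finset.mem_union_right _ (Finset.mem_union_left _ (Finset.mem_image_of_mem _ hi))
        · exact Finset.mem_union_left _ (Finset.mem_union_right _ (Finset.mem_image_of_mem _
            (Finset.mem_sdiff.mpr ⟨Finset.mem_univ _, hi⟩)))
      · by_cases hi : i ∈ Is
        · exact absurd (htight i hi v (hXsub hv) hr) (hXnot v hv)
        · exact Finset.mem_union_right _ (Finset.mem_union_right _ (Finset.mem_image_of_mem _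
            (Finset.mem_sdiff.mpr ⟨Finset.mem_univ _, hi⟩)))
      · exact absurd hr (hT.2.2 _ _ (hOd v (hXOp hv) y (Finset.mem_insert_of_mem h3)))
  have huniv := hk.boundary (hZne.mono Finset.subset_union_left) hScard hdisj hclX
  have hd : d0 ∈ X ∪ S := by rw [huniv]; exact Finset.mem_univ _
  rcases Finset.mem_union.mp hd with h | h
  · exact hd0O (hXOp h)
  · rcases Finset.mem_union.mp h with h | h
    · obtain ⟨i, _, hi⟩ := Finset.mem_image.mp h
      exact hd0O (hi ▸ hc.omem i)
    · obtain ⟨i, _, hi⟩ := Finset.mem_image.mp h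
      exact hd0X (hi ▸ hc.xmem i)

end H990
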