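import Pool.Agent.H990_Song.Deg

/-! Linkages from `B` to `A` coded by a step map, obtained from Hall's theorem. -/

namespace H990

open Finset

set_option linter.unusedSectionVars false

variable {V : Type*} [DecidableEq V] [Fintype V]

/-- A step map: off `A` a vertex stays or moves along an arc, never into `B`, and injectively. -/
structure IsStep (r : V → V → Prop) (A B : Finset V) (τ : V → V) : Prop where
  step : ∀ v, v ∉ A → τ v = v ∨ r v (τ v)
  notB : ∀ v, v ∉ A → τ v ∉ B ∨ False
  inj : ∀ v w, v ∉ A → w ∉ A → τ v = τ w → v = w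

lemma exists_step {r : V → V → Prop} (hT : IsTournament r) {A B : Finset V} {t : ℕ}
    (hk : Kc r t) (hA : A.card = t) (hB : B.card = t) (hAB : Disjoint A B) :
    ∃ τ : V → V, IsStep r A B τ := by
  classical
  -- Hall
  let N : {v : V // v ∉ A} → Finset V := fun v => univ.filter (fun w => w ∉ B ∧ (w = v.1 ∨ r v.1 w))
  have hall : ∀ s : Finset {v : V // v ∉ A}, s.card ≤ (s.biUnion N).card := by
    intro s
    by_contra hlt
    push Not at hlt
    set X : Finset V := s.map ⟨Subtype.val, Subtype.val_injective⟩ with hX
    have hXc : X.card = s.card := by rw [hX, Finset.card_map]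
    have hXA : Disjoint X A := by
      rw [Finset.disjoint_left]
      intro x hx
      rw [hX, Finset.mem_map] at hx
      obtain ⟨y, _, rfl⟩ := hx
      exact y.2
    set S : Finset V := (NoutS r X \ X) ∪ (B \ X) with hS
    have hmemN : ∀ w, w ∈ s.biUnion N ↔ (w ∉ B ∧ (w ∈ X ∨ w ∈ NoutS r X)) := by
      intro w
      simp only [Finset.mem_biUnion, N, Finset.mem_filter, Finset.mem_univ, true_and, hX,
        Finset.mem_map, mem_NoutS, Function.Embedding.coeFn_mk]
      constructor
      · rintro ⟨v, hv, hw, h | h⟩
        · exact ⟨hw, Or.inl ⟨v, hv, h.symm⟩⟩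
        · exact ⟨hw, Or.inr ⟨v.1, ⟨v, hv, rfl⟩, h⟩⟩
      · rintro ⟨hw, ⟨v, hv, h⟩ | ⟨_, ⟨v, hv, rfl⟩, h⟩⟩
        · exact ⟨v, hv, hw, Or.inl h.symm⟩
        · exact ⟨v, hv, hw, Or.inr h⟩
    -- counting
    have h1 : (X \ B).card + ((NoutS r X \ X) \ B).card ≤ (s.biUnion N).card := by
      rw [← Finset.card_union_of_disjoint]
      · apply Finset.card_le_card
        intro w hw
        rw [hmemN]
        simp only [Finset.mem_union, Finset.mem_sdiff] at hw
        tauto
      · rw [Finset.disjoint_left]
        intro w hw hw'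
        simp only [Finset.mem_sdiff] at hw hw'
        exact hw'.1.2 hw.1
    have h2 : (X \ B).card + (X ∩ B).card = X.card := Finset.card_sdiff_add_card_inter _ _
    have h3 : (B \ X).card + (B ∩ X).card = B.card := Finset.card_sdiff_add_card_inter _ _
    have h4 : S.card ≤ ((NoutS r X \ X) \ B).card + (B \ X).card := by
      have h5 : S ⊆ ((NoutS r X \ X) \ B) ∪ (B \ X) := by
        intro w hw
        simp only [hS, Finset.mem_union, Finset.mem_sdiff] at hw ⊢
        tauto
      exact (Finset.card_le_card h5).trans (Finset.card_union_le _ _)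
    have h5 : (B ∩ X).card = (X ∩ B).card := by rw [Finset.inter_comm]
    have hXne : X.Nonempty := by
      rw [← Finset.card_pos]
      omega
    have hSlt : S.card < t := by omega
    have hdisj : Disjoint X S := by
      rw [Finset.disjoint_left]
      intro w hw hw'
      simp only [hS, Finset.mem_union, Finset.mem_sdiff] at hw'
      tauto
    have huniv := hk.boundary hXne hSlt hdisj (by
      intro x hx y hr
      rw [Finset.mem_union]
      by_cases hy : y ∈ X
      · exact Or.inl hy
      · right
        simp only [hS, Finset.mem_union, Finset.mem_sdiff]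
        exact Or.inl ⟨mem_NoutS.mpr ⟨x, hx, hr⟩, hy⟩)
    have hAS : A ⊆ S := by
      intro a ha
      have h6 : a ∈ X ∪ S := by rw [huniv]; exact Finset.mem_univ _
      rcases Finset.mem_union.mp h6 with h7 | h7
      · exact absurd ha (Finset.disjoint_left.mp hXA h7)
      · exact h7
    have := Finset.card_le_card hAS
    omega
  obtain ⟨f, hf, hf'⟩ := (Finset.all_card_le_biUnion_card_iff_exists_injective N).mp hall
  refine ⟨fun v => if h : v ∉ A then f ⟨v, h⟩ else v, ?_, ?_, ?_⟩
  · intro v hv
    simp only [dif_pos hv]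
    have := hf' ⟨v, hv⟩
    simp only [N, Finset.mem_filter] at this
    exact this.2.2
  · intro v hv
    left
    simp only [dif_pos hv]
    have := hf' ⟨v, hv⟩
    simp only [N, Finset.mem_filter] at this
    exact this.2.1
  · intro v w hv hw h
    simp only [dif_pos hv, dif_pos hw] at h
    have := hf h
    simpa using this

open Classical in
/-- Number of moving vertices. -/
noncomputable def moved (A : Finset V) (τ : V → V) : ℕ :=
  (univ.filter (fun v => v ∉ A ∧ τ v ≠ v)).card

/-- A step map with no two-step shortcut. -/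
lemma exists_tight_step {r : V → V → Prop} (hT : IsTournament r) {A B : Finset V} {t : ℕ}
    (hk : Kc r t) (hA : A.card = t) (hB : B.card = t) (hAB : Disjoint A B) :
    ∃ τ : V → V, IsStep r A B τ ∧
      ∀ v, v ∉ A → τ v ≠ v → τ v ∉ A → r (τ (τ v)) v := by
  classical
  obtain ⟨τ0, h0⟩ := exists_step hT hk hA hB hAB
  have hex : ∃ n, ∃ τ : V → V, IsStep r A B τ ∧ moved A τ = n := ⟨_, τ0, h0, rfl⟩
  obtain ⟨τ, hτ, hn⟩ := Nat.find_spec hex
  refine ⟨τ, hτ, ?_⟩
  intro v hv hne hw
  by_contra hcon
  set w := τ v with hwdef
  have hvw : r v w := by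
    rcases hτ.step v hv with h | h
    · exact absurd h hne
    · exact h
  have hww : τ w ≠ w := by
    intro h
    exact hne (hτ.inj w v hw hv (by rw [h])).symm.symm
  have hwt : r w (τ w) := by
    rcases hτ.step w hw with h | h
    · exact absurd h hww
    · exact h
  have hne2 : τ w ≠ v := by
    intro h
    rw [h] at hwt
    exact hT.2.2 _ _ hvw hwt
  have hvt : r v (τ w) := hT.of_not hne2 hcon
  -- the modified map
  have hswap : ∀ x, x ∉ A → Equiv.swap v w x ∉ A := by
    intro x hx
    rcases eq_or_ne x v with rfl | h1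
    · rw [Equiv.swap_apply_left]; exact hw
    · rcases eq_or_ne x w with rfl | h2
      · rw [Equiv.swap_apply_right]; exact hv
      · rw [Equiv.swap_apply_of_ne_of_ne h1 h2]; exact hx
  have hstep : IsStep r A B (fun x => τ (Equiv.swap v w x)) := by
    refine ⟨?_, ?_, ?_⟩
    · intro x hx
      rcases eq_or_ne x v with rfl | h1
      · right
        simp only [Equiv.swap_apply_left]
        exact hvt
      · rcases eq_or_ne x w with rfl | h2
        · left
          simp only [Equiv.swap_apply_right]
          rfl
        · simp only [Equiv.swap_apply_of_ne_of_ne h1 h2]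
          exact hτ.step x hx
    · intro x hx
      exact hτ.notB _ (hswap x hx)
    · intro x y hx hy h
      exact (Equiv.swap v w).injective (hτ.inj _ _ (hswap x hx) (hswap y hy) h)
  have hlt : moved A (fun x => τ (Equiv.swap v w x)) < moved A τ := by
    unfold moved
    apply Finset.card_lt_card
    rw [Finset.ssubset_iff_of_subset]
    · refine ⟨w, ?_, ?_⟩
      · simp only [Finset.mem_filter, Finset.mem_univ, true_and]
        exact ⟨hw, hww⟩
      · simp only [Finset.mem_filter, Finset.mem_univ, true_and, Equiv.swap_apply_right, not_and,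
          not_not]
        intro _
        rfl
    · intro x hx
      simp only [Finset.mem_filter, Finset.mem_univ, true_and] at hx ⊢
      refine ⟨hx.1, ?_⟩
      rcases eq_or_ne x v with rfl | h1
      · exact hne
      · rcases eq_or_ne x w with rfl | h2
        · exact hww
        · have := hx.2
          rwa [Equiv.swap_apply_of_ne_of_ne h1 h2] at this
  have := Nat.find_min' hex ⟨_, hstep, rfl⟩
  omega

section tracks

variable {r : V → V → Prop} {A B : Finset V} {τ : V → V}

/-- Coincidences of orbits from `B` before reaching `A`. -/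
lemma IsStep.coincide (hτ : IsStep r A B τ) :
    ∀ (i j : ℕ) (b b' : V), b ∈ B → b' ∈ B → (∀ k < i, τ^[k] b ∉ A) → (∀ k < j, τ^[k] b' ∉ A) →
      τ^[i] b = τ^[j] b' → i = j ∧ b = b' := by
  intro i
  induction i with
  | zero =>
    intro j b b' hb hb' hi hj h
    cases j with
    | zero => exact ⟨rfl, h⟩
    | succ j =>
      exfalso
      rw [Function.iterate_succ_apply'] at h
      simp only [Function.iterate_zero, id] at h
      rcases hτ.notB _ (hj j (Nat.lt_succ_self j)) with h1 | h1
      · exact h1 (h ▸ hb)
      · exact h1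
  | succ i ih =>
    intro j b b' hb hb' hi hj h
    cases j with
    | zero =>
      exfalso
      rw [Function.iterate_succ_apply'] at h
      simp only [Function.iterate_zero, id] at h
      rcases hτ.notB _ (hi i (Nat.lt_succ_self i)) with h1 | h1
      · exact h1 (h ▸ hb')
      · exact h1
    | succ j =>
      rw [Function.iterate_succ_apply', Function.iterate_succ_apply'] at h
      have h1 := hτ.inj _ _ (hi i (Nat.lt_succ_self i)) (hj j (Nat.lt_succ_self j)) h
      have h2 := ih j b b' hb hb' (fun k hk => hi k (by omega)) (fun k hk => hj k (by omega)) h1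
      exact ⟨by omega, h2.2⟩

lemma IsStep.exists_end (hτ : IsStep r A B τ) {b : V} (hb : b ∈ B) : ∃ m, τ^[m] b ∈ A := by
  by_contra hcon
  push Not at hcon
  have hinj : Function.Injective (fun i : ℕ => τ^[i] b) := by
    intro i j hij
    exact (hτ.coincide i j b b hb hb (fun k _ => hcon k) (fun k _ => hcon k) hij).1
  exact not_injective_infinite_finite _ hinj

open Classical in
/-- First time in `A` (zero outside `B`). -/
noncomputable def tend (A : Finset V) (τ : V → V) (b : V) : ℕ :=
  if h : ∃ m, τ^[m] b ∈ A then Nat.find h else 0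

lemma IsStep.tend_spec (hτ : IsStep r A B τ) {b : V} (hb : b ∈ B) :
    τ^[tend A τ b] b ∈ A ∧ ∀ k < tend A τ b, τ^[k] b ∉ A := by
  classical
  have h := hτ.exists_end hb
  unfold tend
  rw [dif_pos h]
  exact ⟨Nat.find_spec h, fun k hk => Nat.find_min h hk⟩

/-- The vertex set of the track of `b`. -/
noncomputable def track (A : Finset V) (τ : V → V) (b : V) : Finset V :=
  (Finset.range (tend A τ b + 1)).image (fun i => τ^[i] b)

lemma mem_track {b v : V} : v ∈ track A τ b ↔ ∃ i ≤ tend A τ b, τ^[i] b = v := by
  simp only [track, Finset.mem_image, Finset.mem_range]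
  constructor
  · rintro ⟨i, hi, h⟩
    exact ⟨i, by omega, h⟩
  · rintro ⟨i, hi, h⟩
    exact ⟨i, by omega, h⟩

lemma card_track_le {b : V} : (track A τ b).card ≤ tend A τ b + 1 := by
  unfold track
  exact Finset.card_image_le.trans (by simp)

lemma IsStep.track_disjoint (hτ : IsStep r A B τ) {b b' : V} (hb : b ∈ B) (hb' : b' ∈ B)
    (hne : b ≠ b') : Disjoint (track A τ b) (track A τ b') := by
  rw [Finset.disjoint_left]
  intro v hv hv'
  obtain ⟨i, hi, h⟩ := mem_track.mp hv
  obtain ⟨j, hj, h'⟩ := mem_track.mp hv'
  exact hne (hτ.coincide i j b b' hb hb' (fun k hk => (hτ.tend_spec hb).2 k (by omega))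
    (fun k hk => (hτ.tend_spec hb').2 k (by omega)) (h.trans h'.symm)).2

/-- Injectivity along a track. -/
lemma IsStep.track_inj (hτ : IsStep r A B τ) {b : V} (hb : b ∈ B) {i j : ℕ}
    (hi : i ≤ tend A τ b) (hj : j ≤ tend A τ b) (h : τ^[i] b = τ^[j] b) : i = j :=
  (hτ.coincide i j b b hb hb (fun k hk => (hτ.tend_spec hb).2 k (by omega))
    (fun k hk => (hτ.tend_spec hb).2 k (by omega)) h).1

/-- Either the track is a genuine path or it is stationary; disjointness of `A` and `B` rules out
the latter. -/
lemma IsStep.track_arc (hτ : IsStep r A B τ) {b : V} (hb : b ∈ B) {i : ℕ}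
    (hi : i < tend A τ b) : r (τ^[i] b) (τ^[i + 1] b) := by
  rw [Function.iterate_succ_apply']
  rcases hτ.step _ ((hτ.tend_spec hb).2 i hi) with h | h
  · exfalso
    have h1 : τ^[i + 1] b = τ^[i] b := by rw [Function.iterate_succ_apply', h]
    have := hτ.track_inj hb (by omega) (by omega) h1
    omega
  · exact h

/-- A property that holds at the start of a track and fails at its end fails across an arc. -/
lemma IsStep.crossing (hτ : IsStep r A B τ) {b : V} (hb : b ∈ B) (P : V → Prop) (h0 : P b)
    (h1 : ∀ a ∈ A, a ∈ track A τ b → ¬ P a) :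
    ∃ i < tend A τ b, P (τ^[i] b) ∧ ¬ P (τ^[i + 1] b) := by
  classical
  by_contra hcon
  push Not at hcon
  have h2 : ∀ i ≤ tend A τ b, P (τ^[i] b) := by
    intro i
    induction i with
    | zero => intro _; exact h0
    | succ i ih =>
      intro hi
      exact hcon i (by omega) (ih (by omega))
  exact h1 _ (hτ.tend_spec hb).1 (mem_track.mpr ⟨_, le_rfl, rfl⟩) (h2 _ le_rfl)

end tracks

end H990
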