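import Pool.Agent.H990_Song.Cases

/-! Assembly of the upper bound. -/

namespace H990

open Finset

set_option linter.unusedSectionVars false

variable {V : Type*} [DecidableEq V] [Fintype V]

/-- Reversed degree of reachability along a track: forward version. -/
lemma IsStep.reach {r : V → V → Prop} {A B W : Finset V} {τ : V → V} (hτ : IsStep r A B τ)
    {b d0 : V} (hb : b ∈ B) (hW : Disjoint (track A τ b) W) (hd : d0 ∉ W)
    (hend : r (τ^[tend A τ b] b) d0) : Disjoint (Zcl r W d0) (track A τ b) := by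
  rw [Finset.disjoint_left]
  intro v hv hvt
  obtain ⟨i, hi, rfl⟩ := mem_track.mp hvt
  have h1 : ∀ k, i + k ≤ tend A τ b → τ^[i + k] b ∈ Zcl r W d0 := by
    intro k
    induction k with
    | zero => intro _; exact hv
    | succ k ih =>
      intro hk
      rcases Finset.mem_union.mp (Zcl_closed _ (ih (by omega)) _ (hτ.track_arc hb hk)) with h | h
      · exact h
      · exact absurd h (Finset.disjoint_left.mp hW (mem_track.mpr ⟨_, hk, rfl⟩))
  have h2 := h1 (tend A τ b - i) (by omega)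
  have h3 : i + (tend A τ b - i) = tend A τ b := by omega
  rw [h3] at h2
  rcases Finset.mem_union.mp (Zcl_closed _ h2 _ hend) with h | h
  · exact Zcl_not_mem h
  · exact hd h

/-- Reversed version. -/
lemma IsStep.reach_rev {r : V → V → Prop} {A B W : Finset V} {τ : V → V}
    (hτ : IsStep r A B τ) {b d0 : V} (hb : b ∈ B) (hW : Disjoint (track A τ b) W) (hd : d0 ∉ W)
    (hstart : r d0 b) : Disjoint (Zcl (rev r) W d0) (track A τ b) := by
  rw [Finset.disjoint_left]
  intro v hv hvt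
  obtain ⟨i, hi, rfl⟩ := mem_track.mp hvt
  have h1 : ∀ k ≤ i, τ^[i - k] b ∈ Zcl (rev r) W d0 := by
    intro k
    induction k with
    | zero => intro _; exact hv
    | succ k ih =>
      intro hk
      have h3 : i - k = i - (k + 1) + 1 := by omega
      have h4 := ih (by omega)
      have h5 := hτ.track_arc hb (i := i - (k + 1)) (by omega)
      rw [← h3] at h5
      rcases Finset.mem_union.mp (Zcl_closed _ h4 _ h5) with h | h
      · exact h
      · exact absurd h (Finset.disjoint_left.mp hW (mem_track.mpr ⟨_, by omega, rfl⟩))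
  have h2 := h1 i le_rfl
  simp only [Nat.sub_self, Function.iterate_zero, id] at h2
  rcases Finset.mem_union.mp (Zcl_closed _ h2 _ hstart) with h | h
  · exact Zcl_not_mem h
  · exact hd h

/-- The thin case. -/
lemma thin_case {r : V → V → Prop} (hT : IsTournament r) {t : ℕ} (hk : Kc r t)
    {ι : Type*} [Fintype ι] [DecidableEq ι] (hι : Fintype.card ι + 1 = t)
    {A B : Finset V} {τ : V → V} (hτ : IsStep r A B τ) (hA : A.card = t) (hB : B.card = t)
    {q Kb L : ℕ} (l : ι → ℕ) (hl3 : ∀ i, 3 ≤ l i) (hlq : ∑ i, l i ≤ q)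
    (hbK : ∀ b ∈ B, (Nout r b).card ≤ Kb) (haK : ∀ a ∈ A, (Nout (rev r) a).card ≤ Kb)
    (hshort : ∀ b ∈ B, tend A τ b + 1 ≤ L)
    (hn : (t * L + 2 * (2 * (Kb + q) + 1)) + 2 * (t * Kb) +
      2 ^ (t * L + 2 * (2 * (Kb + q) + 1)) * q + 1 ≤ Fintype.card V) :
    ∃ F : ι → Finset V, (∀ i, Strong r (F i)) ∧ (∀ i, (F i).card = l i) ∧
      (∀ i j, i ≠ j → Disjoint (F i) (F j)) ∧ Strong r (univ \ univ.biUnion F) := by
  classical
  set ψ := t * L + 2 * (2 * (Kb + q) + 1) with hψ
  set Ψ : Finset V := B.biUnion (fun b => track A τ b) ∪ (Low r (Kb + q) ∪ Low (rev r) (Kb + q))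
    with hΨ
  have hΨcard : Ψ.card ≤ ψ := by
    have h1 : (B.biUnion (fun b => track A τ b)).card ≤ B.card * L :=
      Finset.card_biUnion_le_card_mul _ _ _ (fun b hb => card_track_le.trans (hshort b hb))
    have h2 := card_Low_le hT (Kb + q)
    have h3 := card_Low_le hT.rev (Kb + q)
    rw [hB] at h1
    calc Ψ.card ≤ _ + (Low r (Kb + q) ∪ Low (rev r) (Kb + q)).card := Finset.card_union_le _ _
      _ ≤ _ + ((Low r (Kb + q)).card + (Low (rev r) (Kb + q)).card) :=
        Nat.add_le_add_left (Finset.card_union_le _ _) _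
      _ ≤ ψ := by omega
  have htrackΨ : ∀ b ∈ B, track A τ b ⊆ Ψ := by
    intro b hb v hv
    exact Finset.mem_union_left _ (Finset.mem_biUnion.mpr ⟨b, hb, hv⟩)
  set Dom : Finset V := univ \ (Ψ ∪ (NoutS r B ∪ NoutS (rev r) A)) with hDom
  have hDomcard : 2 ^ Ψ.card * q < Dom.card := by
    have h1 : (NoutS r B).card ≤ t * Kb := by
      rw [← hB]; exact card_NoutS_le hbK
    have h2 : (NoutS (rev r) A).card ≤ t * Kb := by
      rw [← hA]; exact card_NoutS_le haK
    have h3 : (Ψ ∪ (NoutS r B ∪ NoutS (rev r) A)).card ≤ ψ + 2 * (t * Kb) := by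
      calc _ ≤ Ψ.card + (NoutS r B ∪ NoutS (rev r) A).card := Finset.card_union_le _ _
        _ ≤ Ψ.card + ((NoutS r B).card + (NoutS (rev r) A).card) :=
          Nat.add_le_add_left (Finset.card_union_le _ _) _
        _ ≤ _ := by omega
    rw [hDom, Finset.card_sdiff_of_subset (Finset.subset_univ _), Finset.card_univ]
    have h4 : 2 ^ Ψ.card * q ≤ 2 ^ ψ * q :=
      Nat.mul_le_mul_right _ (Nat.pow_le_pow_right (by norm_num) hΨcard)
    omega
  obtain ⟨O, hO, hfib⟩ := Finset.exists_lt_card_fiber_of_mul_lt_card_of_maps_to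
    (s := Dom) (t := Ψ.powerset) (f := fun d => Nout r d ∩ Ψ) (n := q)
    (by
      intro d _
      rw [Finset.mem_powerset]
      exact Finset.inter_subset_right)
    (by rw [Finset.card_powerset]; exact hDomcard)
  set D' : Finset V := Dom.filter (fun d => Nout r d ∩ Ψ = O) with hD'
  have hD'ne : D'.Nonempty := by
    rw [← Finset.card_pos]; omega
  obtain ⟨d0, hd0⟩ := hD'ne
  have hDprop : ∀ d ∈ D', d ∉ Ψ ∧ d ∉ NoutS r B ∧ d ∉ NoutS (rev r) A ∧ Nout r d ∩ Ψ = O := by
    intro d hd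
    obtain ⟨hd1, hd2⟩ := Finset.mem_filter.mp hd
    have hd3 := (Finset.mem_sdiff.mp hd1).2
    refine ⟨fun h => hd3 (Finset.mem_union_left _ h),
      fun h => hd3 (Finset.mem_union_right _ (Finset.mem_union_left _ h)),
      fun h => hd3 (Finset.mem_union_right _ (Finset.mem_union_right _ h)), hd2⟩
  have hDO : ∀ d ∈ D', ∀ o ∈ O, r d o := by
    intro d hd o ho
    rw [← (hDprop d hd).2.2.2, Finset.mem_inter, mem_Nout] at ho
    exact ho.1
  have hOΨ : O ⊆ Ψ := Finset.mem_powerset.mp hO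
  have hDX : ∀ d ∈ D', ∀ x ∈ Ψ \ O, r x d := by
    intro d hd x hx
    rw [Finset.mem_sdiff] at hx
    have h1 : d ≠ x := by
      rintro rfl
      exact (hDprop d hd).1 hx.1
    apply hT.of_not h1
    intro h
    apply hx.2
    rw [← (hDprop d hd).2.2.2, Finset.mem_inter, mem_Nout]
    exact ⟨h, hx.1⟩
  have hBO : ∀ b ∈ B, b ∈ O := by
    intro b hb
    have hbΨ : b ∈ Ψ := htrackΨ b hb (mem_track.mpr ⟨0, by omega, rfl⟩)
    by_contra hbO
    have h1 := hDX d0 hd0 b (Finset.mem_sdiff.mpr ⟨hbΨ, hbO⟩)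
    exact (hDprop d0 hd0).2.1 (mem_NoutS.mpr ⟨b, hb, h1⟩)
  have hAO : ∀ a ∈ A, a ∉ O := by
    intro a ha haO
    exact (hDprop d0 hd0).2.2.1 (mem_NoutS.mpr ⟨a, ha, hDO d0 hd0 a haO⟩)
  -- disjoint pieces of the bulk
  obtain ⟨Df, hDf1, hDf2, hDf3⟩ := exists_disj_family (fun i => l i - 2) (D'.erase d0) (by
    rw [Finset.card_erase_of_mem hd0]
    have h1 : ∑ i, (l i - 2) ≤ ∑ i, l i := Finset.sum_le_sum (fun i _ => Nat.sub_le _ _)
    omega)
  set DD : Finset V := univ.biUnion Df with hDD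
  have hDDsub : ∀ d ∈ insert d0 DD, d ∈ D' := by
    intro d hd
    rcases Finset.mem_insert.mp hd with rfl | h
    · exact hd0
    · obtain ⟨i, _, hi⟩ := Finset.mem_biUnion.mp h
      exact (Finset.mem_erase.mp (hDf1 i hi)).2
  have hd0DD : d0 ∉ DD := by
    intro h
    obtain ⟨i, _, hi⟩ := Finset.mem_biUnion.mp h
    exact (Finset.mem_erase.mp (hDf1 i hi)).1 rfl
  -- the special track
  obtain ⟨bs, hbs⟩ : B.Nonempty := by
    rw [← Finset.card_pos]; omega
  obtain ⟨β⟩ : Nonempty (ι ↪ {b // b ∈ B.erase bs}) := by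
    apply Function.Embedding.nonempty_of_card_le
    rw [Fintype.card_coe, Finset.card_erase_of_mem hbs]
    omega
  have hβB : ∀ i, (β i).1 ∈ B := fun i => (Finset.mem_erase.mp (β i).2).2
  have hβne : ∀ i, (β i).1 ≠ bs := fun i => (Finset.mem_erase.mp (β i).2).1
  set P : Finset V := track A τ bs with hP
  set Op : Finset V := O \ P with hOp
  set Xp : Finset V := (Ψ \ O) \ P with hXp
  have hOX : Disjoint Op Xp := by
    rw [Finset.disjoint_left]
    intro v hv hv'
    exact (Finset.mem_sdiff.mp (Finset.mem_sdiff.mp hv').1).2 (Finset.mem_sdiff.mp hv).1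
  -- initial configuration
  have hcross : ∀ i, ∃ k < tend A τ (β i).1, τ^[k] (β i).1 ∈ O ∧ τ^[k + 1] (β i).1 ∉ O := by
    intro i
    exact hτ.crossing (hβB i) (fun v => v ∈ O) (hBO _ (hβB i)) (fun a ha _ => hAO a ha)
  choose k hk1 hk2 hk3 using hcross
  have hPdisj : ∀ i, Disjoint (track A τ (β i).1) P := fun i =>
    hτ.track_disjoint (hβB i) hbs (hβne i)
  have htr1 : ∀ i, τ^[k i] (β i).1 ∈ track A τ (β i).1 := fun i =>
    mem_track.mpr ⟨_, (hk1 i).le, rfl⟩
  have htr2 : ∀ i, τ^[k i + 1] (β i).1 ∈ track A τ (β i).1 := fun i =>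
    mem_track.mpr ⟨_, hk1 i, rfl⟩
  have hcfg0 : IsCfg r Op Xp (fun i => τ^[k i] (β i).1) (fun i => τ^[k i + 1] (β i).1) := by
    refine ⟨?_, ?_, ?_, ?_, ?_⟩
    · intro i j hij
      by_contra hne
      have h1 : (β i).1 ≠ (β j).1 := fun h => hne (β.injective (Subtype.ext h))
      have h2 := hτ.track_disjoint (hβB i) (hβB j) h1
      exact Finset.disjoint_left.mp h2 (htr1 i) (by
        have : τ^[k i] (β i).1 = τ^[k j] (β j).1 := hij
        rw [this]; exact htr1 j)
    · intro i j hij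
      by_contra hne
      have h1 : (β i).1 ≠ (β j).1 := fun h => hne (β.injective (Subtype.ext h))
      have h2 := hτ.track_disjoint (hβB i) (hβB j) h1
      exact Finset.disjoint_left.mp h2 (htr2 i) (by
        have : τ^[k i + 1] (β i).1 = τ^[k j + 1] (β j).1 := hij
        rw [this]; exact htr2 j)
    · intro i
      exact Finset.mem_sdiff.mpr ⟨hk2 i, Finset.disjoint_left.mp (hPdisj i) (htr1 i)⟩
    · intro i
      refine Finset.mem_sdiff.mpr ⟨Finset.mem_sdiff.mpr ⟨htrackΨ _ (hβB i) (htr2 i), hk3 i⟩,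
        Finset.disjoint_left.mp (hPdisj i) (htr2 i)⟩
    · intro i
      exact hτ.track_arc (hβB i) (hk1 i)
  -- minimal configuration
  have hex : ∃ n, ∃ o x : ι → V, IsCfg r Op Xp o x ∧
      (Zcl r (Wc DD o x) d0).card + (Zcl (rev r) (Wc DD o x) d0).card = n :=
    ⟨_, _, _, hcfg0, rfl⟩
  obtain ⟨o, x, hc, hcn⟩ := Nat.find_spec hex
  have hmin : ∀ o' x' : ι → V, IsCfg r Op Xp o' x' →
      (Zcl r (Wc DD o x) d0).card + (Zcl (rev r) (Wc DD o x) d0).card ≤
      (Zcl r (Wc DD o' x') d0).card + (Zcl (rev r) (Wc DD o' x') d0).card := by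
    intro o' x' hc'
    rw [hcn]
    exact Nat.find_min' hex ⟨o', x', hc', rfl⟩
  -- the pieces
  set F : ι → Finset V := fun i => insert (o i) (insert (x i) (Df i)) with hF
  have hoD : ∀ i j, o i ∉ Df j := by
    intro i j h
    have h1 := (Finset.mem_erase.mp (hDf1 j h)).2
    exact (hDprop _ h1).1 (hOΨ (Finset.mem_sdiff.mp (hc.omem i)).1)
  have hxD : ∀ i j, x i ∉ Df j := by
    intro i j h
    have h1 := (Finset.mem_erase.mp (hDf1 j h)).2
    exact (hDprop _ h1).1 (Finset.mem_sdiff.mp (Finset.mem_sdiff.mp (hc.xmem i)).1).1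
  have hox : ∀ i j, o i ≠ x j := fun i j h =>
    Finset.disjoint_left.mp hOX (hc.omem i) (h ▸ hc.xmem j)
  have hUW : univ.biUnion F = Wc DD o x := by
    ext v
    rw [mem_Wc, Finset.mem_biUnion]
    constructor
    · rintro ⟨i, _, hi⟩
      simp only [hF, Finset.mem_insert] at hi
      rcases hi with rfl | rfl | h
      · exact Or.inl ⟨i, rfl⟩
      · exact Or.inr (Or.inl ⟨i, rfl⟩)
      · exact Or.inr (Or.inr (Finset.mem_biUnion.mpr ⟨i, Finset.mem_univ _, h⟩))
    · rintro (⟨i, rfl⟩ | ⟨i, rfl⟩ | h)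
      · exact ⟨i, Finset.mem_univ _, by simp [hF]⟩
      · exact ⟨i, Finset.mem_univ _, by simp [hF]⟩
      · obtain ⟨i, _, hi⟩ := Finset.mem_biUnion.mp h
        exact ⟨i, Finset.mem_univ _, by simp [hF, hi]⟩
  have hFcard : ∀ i, (F i).card = l i := by
    intro i
    have h1 : x i ∉ Df i := hxD i i
    have h2 : o i ∉ insert (x i) (Df i) := by
      rw [Finset.mem_insert, not_or]
      exact ⟨hox i i, hoD i i⟩
    simp only [hF]
    rw [Finset.card_insert_of_notMem h2, Finset.card_insert_of_notMem h1, hDf2]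
    have := hl3 i
    omega
  have hFdisj : ∀ i j, i ≠ j → Disjoint (F i) (F j) := by
    intro i j hij
    rw [Finset.disjoint_left]
    intro v hv hv'
    simp only [hF, Finset.mem_insert] at hv hv'
    rcases hv with rfl | rfl | hv
    · rcases hv' with h | h | h
      · exact hij (hc.oinj h)
      · exact hox _ _ h
      · exact hoD _ _ h
    · rcases hv' with h | h | h
      · exact hox _ _ h.symm
      · exact hij (hc.xinj h)
      · exact hxD _ _ h
    · rcases hv' with h | h | h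
      · exact hoD _ _ (h ▸ hv)
      · exact hxD _ _ (h ▸ hv)
      · exact Finset.disjoint_left.mp (hDf3 i j hij) hv h
  -- facts on `W`
  set W := Wc DD o x with hW
  have hWcard : W.card ≤ q := by
    rw [← hUW]
    calc (univ.biUnion F).card ≤ ∑ i, (F i).card := Finset.card_biUnion_le
      _ = ∑ i, l i := Finset.sum_congr rfl (fun i _ => hFcard i)
      _ ≤ q := hlq
  have hPW : Disjoint P W := by
    rw [Finset.disjoint_left]
    intro v hv hvW
    rcases mem_Wc.mp hvW with ⟨i, rfl⟩ | ⟨i, rfl⟩ | h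
    · exact (Finset.mem_sdiff.mp (hc.omem i)).2 hv
    · exact (Finset.mem_sdiff.mp (hc.xmem i)).2 hv
    · exact (hDprop v (hDDsub v (Finset.mem_insert_of_mem h))).1 (htrackΨ bs hbs hv)
  have hdW : d0 ∉ W := by
    intro h
    rcases mem_Wc.mp h with ⟨i, hi⟩ | ⟨i, hi⟩ | h
    · apply (hDprop d0 hd0).1
      rw [← hi]
      exact hOΨ (Finset.mem_sdiff.mp (hc.omem i)).1
    · apply (hDprop d0 hd0).1
      rw [← hi]
      exact (Finset.mem_sdiff.mp (Finset.mem_sdiff.mp (hc.xmem i)).1).1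
    · exact hd0DD h
  have hends := (hτ.tend_spec hbs).1
  have hendP : τ^[tend A τ bs] bs ∈ P := mem_track.mpr ⟨_, le_rfl, rfl⟩
  have hbsP : bs ∈ P := mem_track.mpr ⟨0, by omega, rfl⟩
  have hsub1 : Zcl r W d0 ⊆ Op := by
    have h1 := trap hT (Ψ := Ψ) (Kb := Kb) (q := q) hWcard hPW hdW hbsP (hbK bs hbs)
      (by
        intro v hv
        exact Finset.mem_union_right _ (Finset.mem_union_left _ hv))
      (hτ.reach hbs hPW hdW (hDX d0 hd0 _ (Finset.mem_sdiff.mpr
        ⟨htrackΨ bs hbs hendP, hAO _ hends⟩)))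
    rw [(hDprop d0 hd0).2.2.2] at h1
    exact h1
  have hsub2 : Zcl (rev r) W d0 ⊆ Xp := by
    have h1 := trap hT.rev (Ψ := Ψ) (Kb := Kb) (q := q) hWcard hPW hdW hendP (haK _ hends)
      (by
        intro v hv
        exact Finset.mem_union_right _ (Finset.mem_union_right _ hv))
      (hτ.reach_rev hbs hPW hdW (hDO d0 hd0 bs (hBO bs hbs)))
    refine h1.trans ?_
    intro v hv
    rw [Finset.mem_sdiff, Finset.mem_inter, mem_Nout] at hv
    refine Finset.mem_sdiff.mpr ⟨Finset.mem_sdiff.mpr ⟨hv.1.2, ?_⟩, hv.2⟩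
    intro hvO
    exact hT.2.2 _ _ (hDO d0 hd0 v hvO) hv.1.1
  have hz1 : Zcl r W d0 = ∅ := by
    apply exchange hT hk (ι := ι) (by omega) hd0DD hOX _ _ hc hsub1 hmin
    · intro v hv d hd
      exact hDO d (hDDsub d hd) v (Finset.mem_sdiff.mp hv).1
    · intro v hv d hd
      exact hDX d (hDDsub d hd) v (Finset.mem_sdiff.mp hv).1
  have hz2 : Zcl (rev r) W d0 = ∅ := by
    have h1 := exchange (r := rev r) hT.rev hk.rev (ι := ι) (Op := Xp) (Xp := Op) (DD := DD)
      (d0 := d0) (o := x) (x := o) (by omega) hd0DD hOX.symm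
      (by
        intro v hv d hd
        exact hDX d (hDDsub d hd) v (Finset.mem_sdiff.mp hv).1)
      (by
        intro v hv d hd
        exact hDO d (hDDsub d hd) v (Finset.mem_sdiff.mp hv).1)
      hc.rev (by rw [Wc_swap]; exact hsub2)
      (by
        intro o' x' hc'
        have h2 := hmin x' o' hc'.rev
        rw [rev_rev, Wc_swap (o := o) (x := x), Wc_swap (o := x') (x := o'), add_comm,
          add_comm (Zcl (rev r) (Wc DD x' o') d0).card]
        exact h2)
    rw [Wc_swap] at h1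
    exact h1
  refine ⟨F, ?_, hFcard, hFdisj, ?_⟩
  · intro i
    apply strong_triangle
    · rw [← Finset.card_pos, hDf2]
      have := hl3 i
      omega
    · exact hc.arc i
    · intro d hd
      exact hDX d (Finset.mem_erase.mp (hDf1 i hd)).2 _ (Finset.mem_sdiff.mp (hc.xmem i)).1
    · intro d hd
      exact hDO d (Finset.mem_erase.mp (hDf1 i hd)).2 _ (Finset.mem_sdiff.mp (hc.omem i)).1
  · rw [hUW]
    exact strong_of_Zcl hz1 hz2

end H990
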