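import Pool.Agent.H990_Song.Lower

/-! Song's threshold for partitions into cycles all but one of which have bounded length. -/

open H990 in
/-- For every `t ≥ 1` and `M ≥ 3`: the least connectivity which forces, in all large tournaments,
disjoint cycles of all prescribed lengths at least three summing to the order and at most `M` with
one exception, is exactly `t`. -/
theorem H990.short_cycles_threshold (t M : ℕ) (ht : 1 ≤ t)
    (hM : 3 ≤ M) :
    IsLeast {k : ℕ | ∃ n₀ : ℕ, ∀ n ≥ n₀, ∀ r : Fin n → Fin n → Prop, IsTournament r →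
      KConnected r k → ∀ l : Fin t → ℕ, (∀ i, 3 ≤ l i) → ∑ i, l i = n →
        (∃ j, ∀ i, i ≠ j → l i ≤ M) → HasDisjointCycles r l} t := by
  constructor
  · refine ⟨cn t M, ?_⟩
    intro n hn r hT hk l hl3 hsum hj
    exact upper hT hM hk l hl3 (by rw [Fintype.card_fin]; exact hsum) hj
      (by rw [Fintype.card_fin]; exact hn)
  · rintro k ⟨n₀, h⟩
    by_contra hlt
    push Not at hlt
    obtain ⟨s, rfl⟩ : ∃ s, t = s + 1 := ⟨t - 1, by omega⟩
    obtain ⟨l, hl1, hl2, j, hj⟩ := exists_lengths (t := s + 1) (n := max n₀ (3 * (s + 1))) ht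
      (le_max_right _ _)
    have h1 : 3 * (s + 1) ≤ max n₀ (3 * (s + 1)) := le_max_right _ _
    exact lowRel_not l hl1 (h _ (le_max_left _ _) _ (lowRel_tournament s _)
      (lowRel_conn (by omega) (by omega)) l hl1 hl2 ⟨j, fun i hi => by rw [hj i hi]; exact hM⟩)
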