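import Pool.Agent.H990_Song.Main

/-! The upper bound. -/

namespace H990

open Finset

set_option linter.unusedSectionVars false

/-- Size of the exceptional set. -/
def ce (t M : ℕ) : ℕ :=
  2 * t + 2 * ((2 * (2 * t + 3 * (t * M)) + 1) * ((2 * t + 3 * (t * M)) + 1))

/-- Length of a long track. -/
def cL (t M : ℕ) : ℕ := M * (ce t M + t)

/-- Degree bound in the thin case. -/
def cK (t M : ℕ) : ℕ := M + (ce t M + cL t M + t * M)

/-- The threshold order. -/
def cn (t M : ℕ) : ℕ :=
  (t * cL t M + 2 * (2 * (cK t M + t * M) + 1)) + 2 * (t * cK t M) +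
    2 ^ (t * cL t M + 2 * (2 * (cK t M + t * M) + 1)) * (t * M) + 1 + 2 * t + cK t M

variable {V : Type*} [DecidableEq V] [Fintype V]

/-- Core of the upper bound. -/
lemma core {r : V → V → Prop} (hT : IsTournament r) {t M : ℕ} (hM : 3 ≤ M) (hk : Kc r t)
    {ι : Type*} [Fintype ι] [DecidableEq ι] (hι : Fintype.card ι + 1 = t)
    (l : ι → ℕ) (hl3 : ∀ i, 3 ≤ l i) (hlM : ∀ i, l i ≤ M) (hn : cn t M ≤ Fintype.card V) :
    ∃ F : ι → Finset V, (∀ i, Strong r (F i)) ∧ (∀ i, (F i).card = l i) ∧
      (∀ i j, i ≠ j → Disjoint (F i) (F j)) ∧ Strong r (univ \ univ.biUnion F) := by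
  classical
  have hlq : ∑ i, l i ≤ t * M := by
    calc ∑ i, l i ≤ ∑ _i : ι, M := Finset.sum_le_sum (fun i _ => hlM i)
      _ = Fintype.card ι * M := by simp
      _ ≤ t * M := Nat.mul_le_mul_right _ (by omega)
  obtain ⟨A, B, hA, hB, hAB, hB', hA'⟩ := exists_AB r t (by
    have : 2 * t ≤ cn t M := by unfold cn; omega
    omega)
  have ht : 0 < t := by omega
  set q := t * M with hq
  set E := Eset r A B (2 * t + 3 * q) with hE
  have hEcard : E.card ≤ ce t M := card_Eset_le hT hA hB
  obtain ⟨τ, hτ, hτ2⟩ := exists_tight_step hT hk hA hB hAB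
  -- generic conclusion from pieces avoiding `E` and a track
  have concl : ∀ F : ι → Finset V, (∀ i, (F i).card = l i) → (∀ i, Disjoint (F i) E) →
      (∃ b ∈ B, ∀ i, Disjoint (F i) (track A τ b)) → Strong r (univ \ univ.biUnion F) := by
    intro F hF1 hF2 hF3
    obtain ⟨b, hb, hF3⟩ := hF3
    apply lemmaW hT hk ht hA hB hB' hA' (q := q)
    · calc (univ.biUnion F).card ≤ ∑ i, (F i).card := Finset.card_biUnion_le
        _ = ∑ i, l i := Finset.sum_congr rfl (fun i _ => hF1 i)
        _ ≤ q := hlq
    · rw [Finset.disjoint_biUnion_left]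
      intro i _
      exact hF2 i
    · apply hτ.path hb
      rw [Finset.disjoint_biUnion_right]
      intro i _
      exact (hF3 i).symm
  by_cases hlong : ∃ b ∈ B, M * (ce t M + t) ≤ tend A τ b + 1
  · obtain ⟨b, hb, hlong⟩ := hlong
    obtain ⟨F, h1, h2, h3, h4, h5⟩ := long_blocks hτ hτ2 hb hEcard (by omega) hlong l hl3 hlM
    refine ⟨F, h1, h2, h3, ?_⟩
    rcases isEmpty_or_nonempty ι with hι0 | hι1
    · have h6 : univ.biUnion F = ∅ := by
        rw [Finset.univ_eq_empty]; simp
      rw [h6, Finset.sdiff_empty]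
      exact hk.strong ht
    · have hcι : 0 < Fintype.card ι := Fintype.card_pos
      obtain ⟨b1, hb1⟩ : (B.erase b).Nonempty := by
        rw [← Finset.card_pos, Finset.card_erase_of_mem hb]
        omega
      rw [Finset.mem_erase] at hb1
      apply concl F h2 h4 ⟨b1, hb1.2, ?_⟩
      intro i
      exact Finset.disjoint_of_subset_left (h5 i) (hτ.track_disjoint hb hb1.2 (Ne.symm hb1.1))
  · push Not at hlong
    obtain ⟨b0, hb0⟩ : B.Nonempty := by
      rw [← Finset.card_pos]; omega
    rcases greedy r (E ∪ track A τ b0) M t with ⟨F, h1, h2, h3, h4⟩ | ⟨U, h1, h2⟩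
    · -- many strong sets of size `M`
      obtain ⟨g⟩ : Nonempty (ι ↪ Fin t) := by
        apply Function.Embedding.nonempty_of_card_le
        rw [Fintype.card_fin]
        omega
      have h5 : ∀ i, ∃ X : Finset V, X ⊆ F (g i) ∧ Strong r X ∧ X.card = l i := fun i =>
        exists_strong_subset hT (h1 (g i)) (hl3 i) (by rw [h2]; exact hlM i)
      choose X hX1 hX2 hX3 using h5
      refine ⟨X, hX2, hX3, ?_, ?_⟩
      · intro i j hij
        have h6 : g i ≠ g j := fun h => hij (g.injective h)
        exact Finset.disjoint_of_subset_left (hX1 i)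
          (Finset.disjoint_of_subset_right (hX1 j) (h4 _ _ h6))
      · apply concl X hX3
        · intro i
          have h7 := h3 (g i)
          rw [Finset.disjoint_union_right] at h7
          exact Finset.disjoint_of_subset_left (hX1 i) h7.1
        · refine ⟨b0, hb0, fun i => ?_⟩
          have h7 := h3 (g i)
          rw [Finset.disjoint_union_right] at h7
          exact Finset.disjoint_of_subset_left (hX1 i) h7.2
    · -- thin case
      set S' := (E ∪ track A τ b0) ∪ U with hS'
      have hS'card : S'.card ≤ ce t M + cL t M + t * M := by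
        have h3 := hlong b0 hb0
        have h4 : (track A τ b0).card ≤ cL t M := by
          unfold cL
          exact card_track_le.trans h3.le
        calc S'.card ≤ (E ∪ track A τ b0).card + U.card := Finset.card_union_le _ _
          _ ≤ (E.card + (track A τ b0).card) + U.card :=
            Nat.add_le_add_right (Finset.card_union_le _ _) _
          _ ≤ _ := by omega
      have hK1 : M + S'.card ≤ cK t M := by unfold cK; omega
      have hltV : S'.card < Fintype.card V := by
        have : cK t M + 1 ≤ cn t M := by unfold cn; omega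
        omega
      have hno' : ∀ X : Finset V, Strong (rev r) X → X.card = M → ¬ Disjoint X S' := by
        intro X hX hXM
        exact h2 X (by have := hX.rev; rwa [rev_rev] at this) hXM
      have hABS : ∀ v, v ∉ S' → v ∉ A ∪ B := by
        intro v hv h
        apply hv
        apply Finset.mem_union_left
        apply Finset.mem_union_left
        rw [hE]
        unfold Eset
        exact Finset.mem_union_left _ h
      obtain ⟨v, hv1, hv2⟩ := small_degree hT hM h2 hltV
      obtain ⟨w, hw1, hw2⟩ := small_degree hT.rev hM hno' hltV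
      have hbK : ∀ b ∈ B, (Nout r b).card ≤ cK t M := fun b hb =>
        (hB' b hb v (hABS v hv1)).trans (hv2.trans hK1)
      have haK : ∀ a ∈ A, (Nout (rev r) a).card ≤ cK t M := fun a ha =>
        (hA' a ha w (hABS w hw1)).trans (hw2.trans hK1)
      apply thin_case hT hk hι hτ hA hB (q := t * M) (Kb := cK t M) (L := cL t M) l hl3 hlq hbK haK
      · intro b hb
        unfold cL
        exact (hlong b hb).le
      · have : (t * cL t M + 2 * (2 * (cK t M + t * M) + 1)) + 2 * (t * cK t M) +
            2 ^ (t * cL t M + 2 * (2 * (cK t M + t * M) + 1)) * (t * M) + 1 ≤ cn t M := by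
          unfold cn; omega
        omega

/-- The upper bound in terms of disjoint strong sets. -/
lemma upper_strong {r : V → V → Prop} (hT : IsTournament r) {t M : ℕ} (hM : 3 ≤ M) (hk : Kc r t)
    (l : Fin t → ℕ) (hl3 : ∀ i, 3 ≤ l i) (hsum : ∑ i, l i = Fintype.card V)
    (j : Fin t) (hlM : ∀ i, i ≠ j → l i ≤ M) (hn : cn t M ≤ Fintype.card V) :
    ∃ F : Fin t → Finset V, (∀ i, Strong r (F i)) ∧ (∀ i, (F i).card = l i) ∧
      (∀ i i', i ≠ i' → Disjoint (F i) (F i')) := by
  classical
  have hcard : Fintype.card {i : Fin t // i ≠ j} + 1 = t := by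
    rw [Fintype.card_subtype_compl]
    simp only [Fintype.card_fin, Fintype.card_subtype_eq]
    have := j.pos
    omega
  obtain ⟨F, h1, h2, h3, h4⟩ := core hT hM hk hcard (fun i => l i.1) (fun i => hl3 i.1)
    (fun i => hlM i.1 i.2) hn
  have hUcard : (univ.biUnion F).card = ∑ i : {i : Fin t // i ≠ j}, l i.1 := by
    rw [Finset.card_biUnion (fun i _ i' _ h => h3 i i' h)]
    exact Finset.sum_congr rfl (fun i _ => h2 i)
  have hsplit : ∑ i : {i : Fin t // i ≠ j}, l i.1 + l j = Fintype.card V := by
    rw [← hsum, ← Finset.sum_erase_add _ _ (Finset.mem_univ j)]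
    congr 1
    rw [← Finset.sum_subtype (univ.erase j) (fun i => by simp) l]
  refine ⟨fun i => if h : i = j then univ \ univ.biUnion F else F ⟨i, h⟩, ?_, ?_, ?_⟩
  · intro i
    by_cases h : i = j
    · simp only [dif_pos h]; exact h4
    · simp only [dif_neg h]; exact h1 _
  · intro i
    by_cases h : i = j
    · simp only [dif_pos h]
      rw [Finset.card_sdiff_of_subset (Finset.subset_univ _), Finset.card_univ, hUcard, h]
      omega
    · simp only [dif_neg h]
      exact h2 _
  · intro i i' hii
    by_cases h : i = j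
    · have h' : i' ≠ j := fun h' => hii (h.trans h'.symm)
      simp only [dif_pos h, dif_neg h']
      rw [Finset.disjoint_left]
      intro v hv hv'
      exact (Finset.mem_sdiff.mp hv).2 (Finset.mem_biUnion.mpr ⟨_, Finset.mem_univ _, hv'⟩)
    · by_cases h' : i' = j
      · simp only [dif_neg h, dif_pos h']
        rw [Finset.disjoint_left]
        intro v hv hv'
        exact (Finset.mem_sdiff.mp hv').2 (Finset.mem_biUnion.mpr ⟨_, Finset.mem_univ _, hv⟩)
      · simp only [dif_neg h, dif_neg h']
        exact h3 _ _ (fun h'' => hii (by simpa using h''))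

/-- `k`-connectivity: more than `k` vertices, and after deleting fewer than `k` vertices every
remaining vertex reaches every other one inside the rest. -/
def KConnected {V : Type*} [Fintype V] (r : V → V → Prop) (k : ℕ) : Prop :=
  k < Fintype.card V ∧ ∀ S : Finset V, S.card < k → ∀ u v : V, u ∉ S → v ∉ S →
    Relation.ReflTransGen (fun x y => r x y ∧ x ∉ S ∧ y ∉ S) u v

lemma KConnected.kc {r : V → V → Prop} {k : ℕ} (h : KConnected r k) : Kc r k := by
  refine ⟨h.1, fun S hS => ?_⟩
  apply strong_of_closed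
  intro X hX hne hcl
  obtain ⟨u, hu⟩ := hne
  apply Finset.Subset.antisymm hX
  intro v hv
  have hreach := h.2 S hS u v (Finset.mem_sdiff.mp (hX hu)).2 (Finset.mem_sdiff.mp hv).2
  induction hreach with
  | refl => exact hu
  | tail _ hbc ih =>
    apply hcl _ (ih _) _ hv hbc.1
    exact Finset.mem_sdiff.mpr ⟨Finset.mem_univ _, hbc.2.1⟩

/-- `t` pairwise disjoint directed cycles of the prescribed lengths. -/
def HasDisjointCycles {V : Type*} (r : V → V → Prop) {t : ℕ} (l : Fin t → ℕ) : Prop :=
  ∃ c : (i : Fin t) → ZMod (l i) → V, (∀ i j, r (c i j) (c i (j + 1))) ∧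
    Function.Injective (fun p : (Σ i : Fin t, ZMod (l i)) => c p.1 p.2)

/-- The upper bound. -/
theorem upper {r : V → V → Prop} (hT : IsTournament r) {t M : ℕ} (hM : 3 ≤ M)
    (hk : KConnected r t) (l : Fin t → ℕ) (hl3 : ∀ i, 3 ≤ l i)
    (hsum : ∑ i, l i = Fintype.card V) (hj : ∃ j, ∀ i, i ≠ j → l i ≤ M)
    (hn : cn t M ≤ Fintype.card V) : HasDisjointCycles r l := by
  classical
  obtain ⟨j, hj⟩ := hj
  obtain ⟨F, h1, h2, h3⟩ := upper_strong hT hM hk.kc l hl3 hsum j hj hn
  have h4 : ∀ i, ∃ c : ZMod (l i) → V, Function.Injective c ∧ (∀ s, r (c s) (c (s + 1))) ∧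
      ∀ s, c s ∈ F i := by
    intro i
    obtain ⟨L, hL1, hL2, hL3, hL4⟩ := exists_cyc hT (h1 i) (hl3 i) (h2 i).ge
    obtain ⟨c, hc1, hc2, hc3⟩ := cyc_to_fun hL1 hL2 (hl3 i) hL3
    exact ⟨c, hc1, hc2, fun s => hL4 _ (hc3 s)⟩
  choose c hc1 hc2 hc3 using h4
  refine ⟨c, hc2, ?_⟩
  rintro ⟨i, s⟩ ⟨i', s'⟩ h
  simp only at h
  by_cases hii : i = i'
  · subst hii
    have := hc1 i h
    rw [this]
  · exfalso
    exact Finset.disjoint_left.mp (h3 i i' hii) (hc3 i s) (h ▸ hc3 i' s')

end H990
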